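import Mathlib

namespace Pool.Agent.Helper376.DL

open scoped Pointwise

variable {G : Type} [Group G]

/-- Products of exactly `k` elements of `S`. -/
def Ball (S : Set G) : ℕ → Set G
  | 0 => {1}
  | (k + 1) => {g | ∃ x ∈ Ball S k, ∃ s ∈ S, g = x * s}

theorem ball_zero_mem (S : Set G) : (1 : G) ∈ Ball S 0 := rfl

theorem ball_succ {S : Set G} {k : ℕ} {x s : G} (hx : x ∈ Ball S k) (hs : s ∈ S) :
    x * s ∈ Ball S (k + 1) := ⟨x, hx, s, hs, rfl⟩

theorem ball_mono_succ {S : Set G} (h1 : (1 : G) ∈ S) {k : ℕ} {x : G} (hx : x ∈ Ball S k) :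
    x ∈ Ball S (k + 1) := ⟨x, hx, 1, h1, (mul_one x).symm⟩

theorem ball_mono {S : Set G} (h1 : (1 : G) ∈ S) {k l : ℕ} (hkl : k ≤ l) {x : G}
    (hx : x ∈ Ball S k) : x ∈ Ball S l := by
  induction hkl with
  | refl => exact hx
  | step _ ih => exact ball_mono_succ h1 ih

theorem ball_add {S : Set G} {k l : ℕ} {x y : G} (hx : x ∈ Ball S k) (hy : y ∈ Ball S l) :
    x * y ∈ Ball S (k + l) := by
  induction l generalizing y with
  | zero =>
    have : y = 1 := hy
    subst this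
    simpa using hx
  | succ l ih =>
    obtain ⟨z, hz, s, hs, rfl⟩ := hy
    rw [← mul_assoc]
    exact ball_succ (ih hz) hs

/-- The graph of the frozen statement. -/
abbrev Cay (S : Finset G) : SimpleGraph G := SimpleGraph.fromRel (fun a b : G => a⁻¹ * b ∈ S)

theorem cay_adj_iff {S : Finset G} (hsym : ∀ s ∈ S, s⁻¹ ∈ S) {a b : G} :
    (Cay S).Adj a b ↔ a ≠ b ∧ a⁻¹ * b ∈ S := by
  rw [SimpleGraph.fromRel_adj]
  constructor
  · rintro ⟨h, h1 | h1⟩
    · exact ⟨h, h1⟩
    · refine ⟨h, ?_⟩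
      have := hsym _ h1
      simpa using this
  · rintro ⟨h, h1⟩
    exact ⟨h, Or.inl h1⟩

theorem mem_ball_of_walk {S : Finset G} (hsym : ∀ s ∈ S, s⁻¹ ∈ S) {x y : G}
    (p : (Cay S).Walk x y) {k : ℕ} (hx : x ∈ Ball (S : Set G) k) :
    y ∈ Ball (S : Set G) (k + p.length) := by
  induction p generalizing k with
  | nil => simpa using hx
  | @cons u v w h p ih =>
    have h2 := ((cay_adj_iff hsym).1 h).2
    have : v ∈ Ball (S : Set G) (k + 1) := ⟨u, hx, u⁻¹ * v, h2, by group⟩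
    have := ih this
    rw [SimpleGraph.Walk.length_cons]
    have e : k + (p.length + 1) = k + 1 + p.length := by ring
    rw [e]
    exact this

theorem exists_walk_of_mem_ball {S : Finset G} {k : ℕ} {g : G} (hg : g ∈ Ball (S : Set G) k) :
    ∃ p : (Cay S).Walk 1 g, p.length ≤ k := by
  induction k generalizing g with
  | zero =>
    have : g = 1 := hg
    subst this
    exact ⟨SimpleGraph.Walk.nil, le_refl _⟩
  | succ k ih =>
    obtain ⟨x, hx, s, hs, rfl⟩ := hg
    obtain ⟨p, hp⟩ := ih hx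
    by_cases h : x = x * s
    · exact ⟨p.copy rfl h, by simpa using Nat.le_succ_of_le hp⟩
    · have hadj : (Cay S).Adj x (x * s) := by
        rw [SimpleGraph.fromRel_adj]
        refine ⟨h, Or.inl ?_⟩
        simpa using hs
      refine ⟨p.concat hadj, ?_⟩
      rw [SimpleGraph.Walk.length_concat]
      omega

theorem dist_le_of_mem_ball {S : Finset G} {k : ℕ} {g : G} (hg : g ∈ Ball (S : Set G) k) :
    (Cay S).dist 1 g ≤ k := by
  obtain ⟨p, hp⟩ := exists_walk_of_mem_ball hg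
  exact le_trans (SimpleGraph.dist_le p) hp

theorem exists_mem_ball {S : Finset G} (hsym : ∀ s ∈ S, s⁻¹ ∈ S)
    (hgen : Subgroup.closure (S : Set G) = ⊤) (g : G) : ∃ k, g ∈ Ball (S : Set G) k := by
  have hg : g ∈ Subgroup.closure (S : Set G) := by rw [hgen]; trivial
  induction hg using Subgroup.closure_induction_right with
  | one => exact ⟨0, rfl⟩
  | mul_right x y hx hy ih =>
    obtain ⟨k, hk⟩ := ih
    exact ⟨k + 1, ball_succ hk hy⟩
  | mul_inv_cancel x y hx hy ih =>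
    obtain ⟨k, hk⟩ := ih
    exact ⟨k + 1, ball_succ hk (hsym _ hy)⟩

theorem cay_connected {S : Finset G} (hsym : ∀ s ∈ S, s⁻¹ ∈ S)
    (hgen : Subgroup.closure (S : Set G) = ⊤) : (Cay S).Connected := by
  have key : ∀ g : G, (Cay S).Reachable 1 g := by
    intro g
    obtain ⟨k, hk⟩ := exists_mem_ball hsym hgen g
    obtain ⟨p, _⟩ := exists_walk_of_mem_ball hk
    exact ⟨p⟩
  haveI : Nonempty G := ⟨1⟩
  exact ⟨fun a b => (key a).symm.trans (key b)⟩

theorem mem_ball_dist {S : Finset G} (hsym : ∀ s ∈ S, s⁻¹ ∈ S)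
    (hgen : Subgroup.closure (S : Set G) = ⊤) (g : G) :
    g ∈ Ball (S : Set G) ((Cay S).dist 1 g) := by
  obtain ⟨p, hp⟩ := (cay_connected hsym hgen).exists_walk_length_eq_dist 1 g
  have := mem_ball_of_walk hsym p (k := 0) rfl
  rw [hp] at this
  simpa using this

theorem dist_le_iff {S : Finset G} (h1 : (1 : G) ∈ S) (hsym : ∀ s ∈ S, s⁻¹ ∈ S)
    (hgen : Subgroup.closure (S : Set G) = ⊤) {g : G} {k : ℕ} :
    (Cay S).dist 1 g ≤ k ↔ g ∈ Ball (S : Set G) k :=
  ⟨fun h => ball_mono (by exact_mod_cast h1) h (mem_ball_dist hsym hgen g),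
    fun h => dist_le_of_mem_ball h⟩

end Pool.Agent.Helper376.DL
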