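import Mathlib

namespace Pool.Agent.Helper376.DL

open Monoid.Coprod

theorem commute_iff_comm_eq_one {G : Type} [Group G] (x y : G) :
    x * y * x⁻¹ * y⁻¹ = 1 ↔ Commute x y := by
  constructor
  · intro h
    have h1 : x * y * x⁻¹ = y := by
      rw [mul_inv_eq_one] at h
      exact h
    have h2 : x * y = y * x := by
      rw [mul_inv_eq_iff_eq_mul] at h1
      exact h1
    exact h2
  · intro h
    rw [h.eq]
    group

/-- If `A` and `B` generate two groups, the kernel of the map from the free product to the direct
product is the normal closure of the commutators of the generators. -/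
theorem ker_toProd {G H : Type} [Group G] [Group H] (A : Set G) (B : Set H)
    (hA : Subgroup.closure A = ⊤) (hB : Subgroup.closure B = ⊤) :
    (toProd : Monoid.Coprod G H →* G × H).ker =
      Subgroup.normalClosure
        ((fun p : G × H => (inl p.1 * inr p.2 * (inl p.1)⁻¹ * (inr p.2)⁻¹ :
          Monoid.Coprod G H)) '' (A ×ˢ B)) := by
  set K := Subgroup.normalClosure
        ((fun p : G × H => (inl p.1 * inr p.2 * (inl p.1)⁻¹ * (inr p.2)⁻¹ :
          Monoid.Coprod G H)) '' (A ×ˢ B)) with hK
  apply le_antisymm
  · let q := QuotientGroup.mk' K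
    have hcomm0 : ∀ a ∈ A, ∀ b ∈ B, Commute (q (inl a)) (q (inr b)) := by
      intro a ha b hb
      have hmem : (inl a * inr b * (inl a)⁻¹ * (inr b)⁻¹ : Monoid.Coprod G H) ∈ K := by
        apply Subgroup.subset_normalClosure
        exact ⟨(a, b), ⟨ha, hb⟩, rfl⟩
      have h1 : q (inl a * inr b * (inl a)⁻¹ * (inr b)⁻¹) = 1 :=
        (QuotientGroup.eq_one_iff _).2 hmem
      rw [map_mul, map_mul, map_mul, map_inv, map_inv] at h1
      exact (commute_iff_comm_eq_one _ _).1 h1
    have hcomm1 : ∀ a ∈ A, ∀ h : H, Commute (q (inl a)) (q (inr h)) := by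
      intro a ha h
      have hh : h ∈ Subgroup.closure B := by rw [hB]; trivial
      induction hh using Subgroup.closure_induction with
      | mem x hx => exact hcomm0 a ha x hx
      | one => simp
      | mul x y _ _ hx hy => rw [map_mul, map_mul]; exact hx.mul_right hy
      | inv x _ hx => rw [map_inv, map_inv]; exact hx.inv_right
    have hcomm : ∀ (g : G) (h : H), Commute (q (inl g)) (q (inr h)) := by
      intro g h
      have hg : g ∈ Subgroup.closure A := by rw [hA]; trivial
      induction hg using Subgroup.closure_induction with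
      | mem x hx => exact hcomm1 x hx h
      | one => simp
      | mul x y _ _ hx hy => rw [map_mul, map_mul]; exact hx.mul_left hy
      | inv x _ hx => rw [map_inv, map_inv]; exact hx.inv_left
    let r : G × H →* (Monoid.Coprod G H) ⧸ K :=
      MonoidHom.noncommCoprod (q.comp inl) (q.comp inr) (fun g h => hcomm g h)
    have hr : r.comp toProd = q := by
      apply hom_ext
      · ext x
        simp [r]
      · ext x
        simp [r]
    intro x hx
    have h2 : q x = 1 := by
      rw [← hr, MonoidHom.comp_apply, (MonoidHom.mem_ker).1 hx, map_one]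
    exact (QuotientGroup.eq_one_iff _).1 h2
  · apply Subgroup.normalClosure_le_normal
    rintro _ ⟨⟨a, b⟩, _, rfl⟩
    change _ ∈ (toProd : Monoid.Coprod G H →* G × H).ker
    rw [MonoidHom.mem_ker]
    simp

theorem fp_prod {G H : Type} [Group G] [Group H] [Group.IsFinitelyPresented G]
    [Group.IsFinitelyPresented H] {A : Set G} {B : Set H} (hAf : A.Finite) (hBf : B.Finite)
    (hA : Subgroup.closure A = ⊤) (hB : Subgroup.closure B = ⊤) :
    Group.IsFinitelyPresented (G × H) := by
  refine Group.IsFinitelyPresented.of_surjective (toProd : Monoid.Coprod G H →* G × H)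
    toProd_surjective ?_
  refine ⟨_, ?_, (ker_toProd A B hA hB).symm⟩
  exact (hAf.prod hBf).image _

theorem fp_explicit {G : Type} [Group G] (h : Group.IsFinitelyPresented G) :
    ∃ n : ℕ, ∃ f : FreeGroup (Fin n) →* G, Function.Surjective f ∧
        ∃ r : Finset (FreeGroup (Fin n)),
          f.ker = Subgroup.normalClosure (r : Set (FreeGroup (Fin n))) := by
  obtain ⟨n, f, hf, T, hT, hk⟩ := h.out
  refine ⟨n, f, hf, hT.toFinset, ?_⟩
  rw [Set.Finite.coe_toFinset, hk]

end Pool.Agent.Helper376.DL
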