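import Mathlib
import Pool.Agent.Helper376.FP

namespace Pool.Agent.Helper376.DL

/-- The relators `a^2`, `[s,t]`, `[a, s a s^-1]`, `t a t^-1 (a (s a s^-1))^-1`. -/
def rels : Set (FreeGroup (Fin 3)) :=
  {FreeGroup.of 0 * FreeGroup.of 0,
   FreeGroup.of 1 * FreeGroup.of 2 * (FreeGroup.of 1)⁻¹ * (FreeGroup.of 2)⁻¹,
   FreeGroup.of 0 * (FreeGroup.of 1 * FreeGroup.of 0 * (FreeGroup.of 1)⁻¹) * (FreeGroup.of 0)⁻¹ *
    (FreeGroup.of 1 * FreeGroup.of 0 * (FreeGroup.of 1)⁻¹)⁻¹,
   FreeGroup.of 2 * FreeGroup.of 0 * (FreeGroup.of 2)⁻¹ *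
    (FreeGroup.of 0 * (FreeGroup.of 1 * FreeGroup.of 0 * (FreeGroup.of 1)⁻¹))⁻¹}

theorem rels_finite : rels.Finite := by
  unfold rels
  exact Set.toFinite _

instance : Finite rels := rels_finite

/-- The finitely presented group acting simply transitively on the horocyclic product of three
trivalent trees. -/
abbrev P : Type := PresentedGroup rels

instance : Group.IsFinitelyPresented P := inferInstance

def a : P := PresentedGroup.of 0
def s : P := PresentedGroup.of 1
def t : P := PresentedGroup.of 2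

theorem mk_eq_one {x : FreeGroup (Fin 3)} (h : x ∈ rels) : PresentedGroup.mk rels x = 1 :=
  PresentedGroup.one_of_mem h

theorem a_sq : a * a = 1 := by
  have := mk_eq_one (x := FreeGroup.of 0 * FreeGroup.of 0) (by simp [rels])
  rw [map_mul] at this
  exact this

theorem st : Commute s t := by
  have := mk_eq_one (x := FreeGroup.of 1 * FreeGroup.of 2 * (FreeGroup.of 1)⁻¹ *
    (FreeGroup.of 2)⁻¹) (by simp [rels])
  simp only [map_mul, map_inv] at this
  exact (commute_iff_comm_eq_one _ _).1 this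

theorem a_sas : Commute a (s * a * s⁻¹) := by
  have := mk_eq_one (x := FreeGroup.of 0 * (FreeGroup.of 1 * FreeGroup.of 0 * (FreeGroup.of 1)⁻¹) *
    (FreeGroup.of 0)⁻¹ * (FreeGroup.of 1 * FreeGroup.of 0 * (FreeGroup.of 1)⁻¹)⁻¹)
    (by simp [rels])
  rw [map_mul, map_mul, map_mul, map_inv, map_inv, map_mul, map_mul, map_inv] at this
  exact (commute_iff_comm_eq_one _ _).1 this

theorem tat : t * a * t⁻¹ = a * (s * a * s⁻¹) := by
  have := mk_eq_one (x := FreeGroup.of 2 * FreeGroup.of 0 * (FreeGroup.of 2)⁻¹ *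
    (FreeGroup.of 0 * (FreeGroup.of 1 * FreeGroup.of 0 * (FreeGroup.of 1)⁻¹))⁻¹)
    (by simp [rels])
  rw [map_mul, map_inv, mul_inv_eq_one] at this
  simp only [map_mul, map_inv] at this
  exact this

/-- The translation `s^i t^j`. -/
def m (i j : ℤ) : P := s ^ i * t ^ j

theorem m_zero : m 0 0 = 1 := by simp [m]

theorem m_mul (i j k l : ℤ) : m i j * m k l = m (i + k) (j + l) := by
  unfold m
  rw [zpow_add, zpow_add]
  have h : t ^ j * s ^ k = s ^ k * t ^ j := ((st.zpow_left k).zpow_right j).eq.symm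
  calc s ^ i * t ^ j * (s ^ k * t ^ l) = s ^ i * (t ^ j * s ^ k) * t ^ l := by group
    _ = s ^ i * (s ^ k * t ^ j) * t ^ l := by rw [h]
    _ = s ^ i * s ^ k * (t ^ j * t ^ l) := by group

theorem m_inv (i j : ℤ) : (m i j)⁻¹ = m (-i) (-j) := by
  rw [inv_eq_iff_mul_eq_one, m_mul]
  simp [m]

/-- The lamp at the site `(i,j)`. -/
def L (i j : ℤ) : P := m i j * a * (m i j)⁻¹

theorem L_zero : L 0 0 = a := by simp [L, m_zero]

theorem m_conj (i j k l : ℤ) : m i j * L k l * (m i j)⁻¹ = L (i + k) (j + l) := by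
  unfold L
  rw [← m_mul]
  group

theorem L_sq (i j : ℤ) : L i j * L i j = 1 := by
  unfold L
  calc m i j * a * (m i j)⁻¹ * (m i j * a * (m i j)⁻¹) = m i j * (a * a) * (m i j)⁻¹ := by group
    _ = 1 := by rw [a_sq]; group

theorem L_inv (i j : ℤ) : (L i j)⁻¹ = L i j := by
  rw [inv_eq_iff_mul_eq_one]; exact L_sq i j

theorem L_rel (i j : ℤ) : L i (j + 1) = L i j * L (i + 1) j := by
  have h0 : L 0 1 = L 0 0 * L 1 0 := by
    simp only [L, m]
    simpa using tat
  have : m i j * L 0 1 * (m i j)⁻¹ = m i j * (L 0 0 * L 1 0) * (m i j)⁻¹ := by rw [h0]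
  rw [m_conj] at this
  have e : m i j * (L 0 0 * L 1 0) * (m i j)⁻¹ =
      (m i j * L 0 0 * (m i j)⁻¹) * (m i j * L 1 0 * (m i j)⁻¹) := by group
  rw [e, m_conj, m_conj] at this
  simpa using this

theorem commute_conj {x y : P} (i j : ℤ) (h : Commute x y) :
    Commute (m i j * x * (m i j)⁻¹) (m i j * y * (m i j)⁻¹) := by
  have := h.map (MulAut.conj (m i j))
  simpa [MulAut.conj_apply] using this

theorem commute_shift (i j k l p q : ℤ) (h : Commute (L i j) (L k l)) :
    Commute (L (p + i) (q + j)) (L (p + k) (q + l)) := by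
  have := commute_conj p q h
  rwa [m_conj, m_conj] at this

theorem comm_nat (n : ℕ) : Commute (L 0 0) (L n 0) := by
  induction n using Nat.strong_induction_on with
  | _ n ih =>
    match n, ih with
    | 0, _ => exact Commute.refl _
    | 1, _ =>
      have := a_sas
      simpa [L, m] using this
    | (n + 2), ih =>
      have h1 : Commute (L 0 0) (L 1 0) := by
        have := a_sas
        simpa [L, m] using this
      have hn := ih n (by omega)
      have hn1 := ih (n + 1) (by omega)
      -- shift the second one by `t`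
      have hA := commute_shift 0 0 _ 0 0 1 hn1
      have e1 : L (0 + 0) (1 + 0) = L 0 0 * L 1 0 := by
        have := L_rel 0 0
        simpa using this
      have e2 : L (0 + ((n + 1 : ℕ) : ℤ)) (1 + 0) =
          L ((n + 1 : ℕ) : ℤ) 0 * L ((n + 2 : ℕ) : ℤ) 0 := by
        have := L_rel ((n + 1 : ℕ) : ℤ) 0
        have e3 : (((n + 1 : ℕ) : ℤ) + 1) = ((n + 2 : ℕ) : ℤ) := by push_cast; ring
        rw [e3] at this
        simpa using this
      rw [e1, e2] at hA
      -- `L 1 0` commutes with both factors on the right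
      have hB : Commute (L 1 0) (L ((n + 1 : ℕ) : ℤ) 0) := by
        have := commute_shift 0 0 _ 0 1 0 hn
        have e3 : (1 : ℤ) + (n : ℤ) = ((n + 1 : ℕ) : ℤ) := by push_cast; ring
        rw [e3] at this
        simpa using this
      have hC : Commute (L 1 0) (L ((n + 2 : ℕ) : ℤ) 0) := by
        have := commute_shift 0 0 _ 0 1 0 hn1
        have e3 : (1 : ℤ) + ((n + 1 : ℕ) : ℤ) = ((n + 2 : ℕ) : ℤ) := by push_cast; ring
        rw [e3] at this
        simpa using this
      have hD : Commute (L 1 0) (L ((n + 1 : ℕ) : ℤ) 0 * L ((n + 2 : ℕ) : ℤ) 0) :=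
        hB.mul_right hC
      have hE : Commute (L 0 0) (L ((n + 1 : ℕ) : ℤ) 0 * L ((n + 2 : ℕ) : ℤ) 0) := by
        have := hA.mul_left hD.inv_left
        simpa using this
      have hF : Commute (L 0 0) ((L ((n + 1 : ℕ) : ℤ) 0)⁻¹ *
          (L ((n + 1 : ℕ) : ℤ) 0 * L ((n + 2 : ℕ) : ℤ) 0)) := by
        have h3 : Commute (L 0 0) (L ((n + 1 : ℕ) : ℤ) 0) := by exact_mod_cast hn1
        exact h3.inv_right.mul_right hE
      simpa using hF

theorem comm_row0 (i k : ℤ) : Commute (L i 0) (L k 0) := by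
  have key : ∀ i k : ℤ, i ≤ k → Commute (L i 0) (L k 0) := by
    intro i k h
    have h1 := comm_nat (k - i).toNat
    have h2 := commute_shift 0 0 _ 0 i 0 h1
    rw [Int.toNat_of_nonneg (by omega)] at h2
    simpa using h2
  rcases le_total i k with h | h
  · exact key i k h
  · exact (key k i h).symm

theorem comm_rows (j l : ℕ) (i k : ℤ) : Commute (L i j) (L k l) := by
  have step1 : ∀ (l : ℕ) (i k : ℤ), Commute (L i 0) (L k l) := by
    intro l
    induction l with
    | zero => intro i k; exact_mod_cast comm_row0 i k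
    | succ l ih =>
      intro i k
      push_cast
      rw [L_rel]
      exact (ih i k).mul_right (ih i (k + 1))
  induction j generalizing i with
  | zero => exact_mod_cast step1 l i k
  | succ j ih =>
    push_cast
    rw [L_rel]
    exact (ih i).mul_left (ih (i + 1))

theorem L_comm (i j k l : ℤ) : Commute (L i j) (L k l) := by
  have h := comm_rows (j + (j.natAbs + l.natAbs)).toNat (l + (j.natAbs + l.natAbs)).toNat i k
  rw [Int.toNat_of_nonneg (by omega), Int.toNat_of_nonneg (by omega)] at h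
  have h2 := commute_shift _ _ _ _ 0 (-(j.natAbs + l.natAbs)) h
  have e1 : (0 : ℤ) + i = i := by ring
  have e2 : (0 : ℤ) + k = k := by ring
  have e3 : -((j.natAbs : ℤ) + l.natAbs) + (j + (j.natAbs + l.natAbs)) = j := by ring
  have e4 : -((j.natAbs : ℤ) + l.natAbs) + (l + (j.natAbs + l.natAbs)) = l := by ring
  rwa [e1, e2, e3, e4] at h2

end Pool.Agent.Helper376.DL
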