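import Mathlib

namespace Helper376Hull

open Finset

/-- partial sums -/
def S (y : ℕ → ℝ) (k : ℕ) : ℝ := ∑ i ∈ range k, y i

/-- the outer polytope: `y` vanishes from `N` on and satisfies the two-parameter inequalities -/
def Q (N : ℕ) (y : ℕ → ℝ) : Prop :=
  (∀ i, N ≤ i → y i = 0) ∧
    ∀ k l : ℕ, k ≤ l → l ≤ N → S y k + S y l ≤ S y N + (k : ℝ) * (l + 1)

/-- spectrum after adding a dominating vertex (to a graph with `N + 1` vertices) -/
def domF (N : ℕ) (lam : ℕ → ℝ) : ℕ → ℝ :=
  fun i => if i = 0 then (N : ℝ) + 2 else if i - 1 < N then lam (i - 1) + 1 else 0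

inductive Thr : ℕ → (ℕ → ℝ) → Prop
  | base : Thr 0 (fun _ => 0)
  | iso {N : ℕ} {lam : ℕ → ℝ} : Thr N lam → Thr (N + 1) lam
  | dom {N : ℕ} {lam : ℕ → ℝ} : Thr N lam → Thr (N + 1) (domF N lam)

theorem Thr.zero {N : ℕ} {lam : ℕ → ℝ} (h : Thr N lam) : ∀ i, N ≤ i → lam i = 0 := by
  induction h with
  | base => intro i _; rfl
  | iso _ ih => intro i hi; exact ih i (by omega)
  | dom _ ih =>
    intro i hi
    unfold domF
    rw [if_neg (by omega), if_neg (by omega)]

theorem S_succ (y : ℕ → ℝ) (k : ℕ) : S y (k + 1) = S y k + y k := Finset.sum_range_succ _ _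

theorem Q_iso {N : ℕ} {y : ℕ → ℝ} (h : Q (N + 1) y) (h0 : y N = 0) : Q N y := by
  refine ⟨?_, ?_⟩
  · intro i hi
    rcases hi.eq_or_lt with h1 | h1
    · rw [← h1, h0]
    · exact h.1 i h1
  · intro k l hkl hl
    have := h.2 k l hkl (by omega)
    rwa [S_succ, h0, add_zero] at this

theorem Q_iso_nonneg {N : ℕ} {y : ℕ → ℝ} (h : Q (N + 1) y) : 0 ≤ y N := by
  have := h.2 0 N (Nat.zero_le _) (Nat.le_succ _)
  rw [S_succ] at this
  simp only [S, range_zero, sum_empty, Nat.cast_zero, zero_mul] at this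
  linarith

/-- link of a dominating vertex -/
def tl (N : ℕ) (y : ℕ → ℝ) : ℕ → ℝ := fun i => if i < N then y (i + 1) - 1 else 0

theorem S_tl (N : ℕ) (y : ℕ → ℝ) : ∀ k, k ≤ N → S (tl N y) k = S y (k + 1) - y 0 - k := by
  intro k
  induction k with
  | zero => intro _; simp [S]
  | succ k ih =>
    intro hk
    rw [S_succ, ih (by omega), S_succ y (k + 1)]
    unfold tl
    rw [if_pos (by omega)]
    push_cast
    ring

theorem Q_dom_le {N : ℕ} {y : ℕ → ℝ} (h : Q (N + 1) y) : y 0 ≤ (N : ℝ) + 2 := by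
  have := h.2 1 (N + 1) (by omega) le_rfl
  have e : S y 1 = y 0 := by simp [S]
  rw [e] at this
  push_cast at this
  linarith

theorem Q_tl {N : ℕ} {y : ℕ → ℝ} (h : Q (N + 1) y) (h0 : y 0 = (N : ℝ) + 2) : Q N (tl N y) := by
  refine ⟨?_, ?_⟩
  · intro i hi
    unfold tl
    rw [if_neg (by omega)]
  · intro k l hkl hl
    have := h.2 (k + 1) (l + 1) (by omega) (by omega)
    rw [S_tl N y k (by omega), S_tl N y l hl, S_tl N y N le_rfl, h0]
    push_cast at this
    nlinarith

theorem Thr.ext {N : ℕ} {lam : ℕ → ℝ} (h : Thr N lam) :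
    ∀ (y z : ℕ → ℝ) (t : ℝ), Q N y → Q N z → 0 < t → t < 1 →
      (∀ i, lam i = t * y i + (1 - t) * z i) → y = lam := by
  induction h with
  | base =>
    intro y z t hy _ _ _ _
    funext i
    exact hy.1 i (Nat.zero_le _)
  | @iso N lam hT ih =>
    intro y z t hy hz ht0 ht1 hlam
    have h1 := Q_iso_nonneg hy
    have h2 := Q_iso_nonneg hz
    have h3 := hlam N
    rw [hT.zero N le_rfl] at h3
    have h4 : t * y N = 0 := by nlinarith [mul_nonneg ht0.le h1, mul_nonneg (sub_pos.mpr ht1).le h2]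
    have h5 : (1 - t) * z N = 0 := by linarith
    have h6 : y N = 0 := by
      rcases mul_eq_zero.mp h4 with h | h
      · exact absurd h ht0.ne'
      · exact h
    have h7 : z N = 0 := by
      rcases mul_eq_zero.mp h5 with h | h
      · exact absurd h (sub_pos.mpr ht1).ne'
      · exact h
    exact ih y z t (Q_iso hy h6) (Q_iso hz h7) ht0 ht1 hlam
  | @dom N lam hT ih =>
    intro y z t hy hz ht0 ht1 hlam
    have h1 := Q_dom_le hy
    have h2 := Q_dom_le hz
    have h3 := hlam 0
    have e0 : domF N lam 0 = (N : ℝ) + 2 := by simp [domF]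
    rw [e0] at h3
    have h6 : y 0 = (N : ℝ) + 2 := by
      by_contra hne
      have hlt : y 0 < (N : ℝ) + 2 := lt_of_le_of_ne h1 hne
      nlinarith [mul_lt_mul_of_pos_left hlt ht0, mul_le_mul_of_nonneg_left h2 (sub_pos.mpr ht1).le]
    have h7 : z 0 = (N : ℝ) + 2 := by
      by_contra hne
      have hlt : z 0 < (N : ℝ) + 2 := lt_of_le_of_ne h2 hne
      nlinarith [mul_lt_mul_of_pos_left hlt (sub_pos.mpr ht1), mul_le_mul_of_nonneg_left h1 ht0.le]
    have h8 := ih (tl N y) (tl N z) t (Q_tl hy h6) (Q_tl hz h7) ht0 ht1 (by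
      intro i
      unfold tl
      split_ifs with hi
      · have := hlam (i + 1)
        unfold domF at this
        rw [if_neg (by omega), Nat.add_sub_cancel, if_pos hi] at this
        linarith
      · rw [hT.zero i (by omega)]; ring)
    funext i
    rcases Nat.eq_zero_or_pos i with hi | hi
    · subst hi; rw [e0, h6]
    · obtain ⟨j, rfl⟩ : ∃ j, i = j + 1 := ⟨i - 1, by omega⟩
      unfold domF
      rw [if_neg (by omega), Nat.add_sub_cancel]
      split_ifs with hj
      · have := congrFun h8 j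
        unfold tl at this
        rw [if_pos hj] at this
        linarith
      · exact hy.1 (j + 1) (by omega)

end Helper376Hull
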