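import Pool.Agent.Helper376.HullA

namespace Helper376Hull

open Finset Matrix

/-- eigenvector number `t` of a threshold graph in construction order -/
def fvec (t v : ℕ) : ℝ := if t = 0 then 1 else if v = t then (t : ℝ) else if v < t then -1 else 0

open Classical in
/-- eigenvalue number `t` of the threshold graph on `0..n-1` with dominating steps `D` -/
noncomputable def mu (D : ℕ → Prop) (n t : ℕ) : ℝ :=
  if t = 0 then 0 else (if D t then (t : ℝ) + 1 else 0) +
    (((range n).filter (fun d => t < d ∧ D d)).card : ℝ)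

theorem sum_lt (n i : ℕ) (h : i ≤ n) (r : ℝ) :
    ∑ u ∈ range n, (if u < i then r else 0) = i * r := by
  rw [← Finset.sum_filter, Finset.sum_const, nsmul_eq_mul]
  congr 2
  have : (range n).filter (fun u => u < i) = range i := by
    ext u; simp; omega
  rw [this, card_range]

theorem sum_eq (n i : ℕ) (h : i < n) (r : ℝ) :
    ∑ u ∈ range n, (if u = i then r else 0) = r := by
  simp [Finset.sum_ite_eq', h]

theorem sum_fvec (n t : ℕ) (ht : t ≠ 0) (htn : t < n) : ∑ u ∈ range n, fvec t u = 0 := by
  have : ∀ u ∈ range n, fvec t u = (if u < t then (-1 : ℝ) else 0) + (if u = t then (t : ℝ) else 0) := by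
    intro u _
    unfold fvec
    rcases lt_trichotomy u t with h | h | h
    · simp [ht, h, h.ne]
    · subst h; simp [ht]
    · simp [ht, h.ne', h.not_gt]
  rw [Finset.sum_congr rfl this, Finset.sum_add_distrib, sum_lt n t htn.le, sum_eq n t htn]
  ring

theorem fvec_orth (n s t : ℕ) (hst : s < t) (htn : t < n) :
    ∑ u ∈ range n, fvec s u * fvec t u = 0 := by
  by_cases hs : s = 0
  · subst hs
    have : ∀ u ∈ range n, fvec 0 u * fvec t u = fvec t u := by
      intro u _; simp [fvec]
    rw [Finset.sum_congr rfl this, sum_fvec n t (by omega) htn]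
  · have : ∀ u ∈ range n, fvec s u * fvec t u = - fvec s u := by
      intro u _
      by_cases hu : u ≤ s
      · have : fvec t u = -1 := by
          unfold fvec
          rw [if_neg (by omega), if_neg (by omega), if_pos (by omega)]
        rw [this]; ring
      · have : fvec s u = 0 := by
          unfold fvec
          rw [if_neg hs, if_neg (by omega), if_neg (by omega)]
        rw [this]; ring
    rw [Finset.sum_congr rfl this, Finset.sum_neg_distrib, sum_fvec n s hs (by omega), neg_zero]

theorem fvec_self_pos (n t : ℕ) (htn : t < n) : 0 < ∑ u ∈ range n, fvec t u * fvec t u := by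
  refine Finset.sum_pos' (fun _ _ => mul_self_nonneg _) ⟨t, mem_range.mpr htn, ?_⟩
  have : fvec t t ≠ 0 := by
    by_cases h : t = 0
    · subst h; simp [fvec]
    · have : fvec t t = t := by simp [fvec, h]
      rw [this]
      exact_mod_cast h
  exact mul_self_pos.mpr this

open Classical in
theorem fvec_eig (D : ℕ → Prop) (n t v : ℕ) (htn : t < n) (hvn : v < n) :
    ∑ u ∈ range n, (if v ≠ u ∧ D (max v u) then fvec t v - fvec t u else 0) =
      mu D n t * fvec t v := by
  by_cases ht : t = 0
  · subst ht
    simp [fvec, mu]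
  rcases lt_trichotomy v t with hv | hv | hv
  · have hfv : fvec t v = -1 := by
      unfold fvec
      rw [if_neg ht, if_neg (by omega), if_pos hv]
    rw [hfv]
    have : ∀ u ∈ range n, (if v ≠ u ∧ D (max v u) then (-1 : ℝ) - fvec t u else 0) =
        (if u = t then (if D t then -1 - (t : ℝ) else 0) else 0) +
          (if t < u ∧ D u then (-1 : ℝ) else 0) := by
      intro u _
      rcases lt_trichotomy u t with hu | hu | hu
      · have : fvec t u = -1 := by
          unfold fvec
          rw [if_neg ht, if_neg (by omega), if_pos hu]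
        rw [this, if_neg (by omega : ¬ u = t), if_neg (by omega : ¬ (t < u ∧ D u))]
        simp
      · subst hu
        have : fvec u u = u := by simp [fvec, ht]
        rw [this, if_pos rfl, if_neg (by omega : ¬ (u < u ∧ D u)), max_eq_right hv.le, add_zero]
        by_cases hD : D u
        · rw [if_pos ⟨hv.ne, hD⟩, if_pos hD]
        · rw [if_neg (fun h => hD h.2), if_neg hD]
      · have : fvec t u = 0 := by
          unfold fvec
          rw [if_neg ht, if_neg (by omega), if_neg (by omega)]
        rw [this, if_neg (by omega : ¬ u = t), max_eq_right (by omega), zero_add]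
        by_cases hD : D u
        · rw [if_pos ⟨by omega, hD⟩, if_pos ⟨hu, hD⟩]; ring
        · rw [if_neg (fun h => hD h.2), if_neg (fun h => hD h.2)]
    rw [Finset.sum_congr rfl this, Finset.sum_add_distrib, sum_eq n t htn, ← Finset.sum_filter,
      Finset.sum_const, nsmul_eq_mul]
    unfold mu
    rw [if_neg ht]
    split_ifs <;> ring
  · subst hv
    have hfv : fvec v v = v := by simp [fvec, ht]
    rw [hfv]
    have : ∀ u ∈ range n, (if v ≠ u ∧ D (max v u) then (v : ℝ) - fvec v u else 0) =
        (if u < v then (if D v then (v : ℝ) + 1 else 0) else 0) +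
          (if v < u ∧ D u then (v : ℝ) else 0) := by
      intro u _
      rcases lt_trichotomy u v with hu | hu | hu
      · have : fvec v u = -1 := by
          unfold fvec
          rw [if_neg ht, if_neg (by omega), if_pos hu]
        rw [this, if_pos hu, if_neg (by omega : ¬ (v < u ∧ D u)), max_eq_left hu.le, add_zero]
        by_cases hD : D v
        · rw [if_pos ⟨hu.ne', hD⟩, if_pos hD]; ring
        · rw [if_neg (fun h => hD h.2), if_neg hD]
      · subst hu
        rw [if_neg (fun h => h.1 rfl), if_neg (lt_irrefl _), if_neg (by omega : ¬ (u < u ∧ D u))]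
        ring
      · have : fvec v u = 0 := by
          unfold fvec
          rw [if_neg ht, if_neg (by omega), if_neg (by omega)]
        rw [this, if_neg (by omega : ¬ u < v), max_eq_right hu.le, zero_add]
        by_cases hD : D u
        · rw [if_pos ⟨hu.ne, hD⟩, if_pos ⟨hu, hD⟩]; ring
        · rw [if_neg (fun h => hD h.2), if_neg (fun h => hD h.2)]
    rw [Finset.sum_congr rfl this, Finset.sum_add_distrib, sum_lt n v htn.le, ← Finset.sum_filter,
      Finset.sum_const, nsmul_eq_mul]
    unfold mu
    rw [if_neg ht]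
    ring
  · have hfv : fvec t v = 0 := by
      unfold fvec
      rw [if_neg ht, if_neg (by omega), if_neg (by omega)]
    rw [hfv, mul_zero]
    have : ∀ u ∈ range n, (if v ≠ u ∧ D (max v u) then (0 : ℝ) - fvec t u else 0) =
        - ((if D v then (1 : ℝ) else 0) * fvec t u) := by
      intro u _
      by_cases hu : u < v
      · rw [max_eq_left hu.le]
        by_cases hD : D v
        · rw [if_pos ⟨hu.ne', hD⟩, if_pos hD]; ring
        · rw [if_neg (fun h => hD h.2), if_neg hD]; ring
      · have : fvec t u = 0 := by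
          unfold fvec
          rw [if_neg ht, if_neg (by omega), if_neg (by omega)]
        rw [this]; simp
    rw [Finset.sum_congr rfl this, Finset.sum_neg_distrib, ← Finset.mul_sum, sum_fvec n t ht htn]
    simp

theorem lap_apply {n : ℕ} (G : SimpleGraph (Fin n)) [DecidableRel G.Adj] (x : Fin n → ℝ) (v : Fin n) :
    (G.lapMatrix ℝ).mulVec x v = ∑ u, if G.Adj v u then x v - x u else 0 := by
  rw [SimpleGraph.lapMatrix_mulVec_apply, ← Finset.sum_filter, Finset.sum_sub_distrib]
  congr 1
  · rw [Finset.sum_const, nsmul_eq_mul, ← SimpleGraph.card_neighborFinset_eq_degree]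
    congr 3
    ext u
    simp
  · apply Finset.sum_congr _ (fun _ _ => rfl)
    ext u
    simp

/-- `G` is a threshold graph: in the order `σ 0, σ 1, …` every new vertex is either adjacent to all
earlier vertices (`D j`) or to none of them. -/
def IsThreshold {n : ℕ} (G : SimpleGraph (Fin n)) : Prop :=
  ∃ (σ : Equiv.Perm (Fin n)) (D : Fin n → Prop), ∀ i j : Fin n, i < j →
    (G.Adj (σ i) (σ j) ↔ D j)

open Classical in
theorem charpoly_thr {n : ℕ} (G : SimpleGraph (Fin n)) [DecidableRel G.Adj]
    (σ : Equiv.Perm (Fin n)) (D : ℕ → Prop)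
    (hG : ∀ i j : Fin n, i < j → (G.Adj (σ i) (σ j) ↔ D j)) :
    (G.lapMatrix ℝ).charpoly = ∏ t : Fin n, (Polynomial.X - Polynomial.C (mu D n t)) := by
  have hadj : ∀ i j : Fin n, (G.Adj (σ i) (σ j) ↔ ((i : ℕ) ≠ j ∧ D (max (i : ℕ) j))) := by
    intro i j
    rcases lt_trichotomy i j with h | h | h
    · have h' : (i : ℕ) < j := h
      rw [hG i j h, max_eq_right h'.le]
      exact ⟨fun hd => ⟨h'.ne, hd⟩, fun hd => hd.2⟩
    · subst h
      simp
    · have h' : (j : ℕ) < i := h
      rw [G.adj_comm, hG j i h, max_eq_left h'.le]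
      exact ⟨fun hd => ⟨h'.ne', hd⟩, fun hd => hd.2⟩
  let F : Matrix (Fin n) (Fin n) ℝ := Matrix.of fun v t => fvec t (σ.symm v : ℕ)
  have hLF : (G.lapMatrix ℝ) * F = F * Matrix.diagonal (fun t : Fin n => mu D n t) := by
    ext v t
    rw [Matrix.mul_diagonal]
    have h1 : ((G.lapMatrix ℝ) * F) v t = (G.lapMatrix ℝ).mulVec (fun u => F u t) v := rfl
    rw [h1, lap_apply]
    obtain ⟨v', rfl⟩ := σ.surjective v
    rw [← Equiv.sum_comp σ]
    simp only [F, Matrix.of_apply, Equiv.symm_apply_apply]
    have h2 : ∀ u : Fin n, (if G.Adj (σ v') (σ u) then fvec t v' - fvec t u else 0) =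
        (fun u : ℕ => if (v' : ℕ) ≠ u ∧ D (max (v' : ℕ) u) then fvec t v' - fvec t u else 0) u := by
      intro u
      simp only [hadj v' u]
    rw [Finset.sum_congr rfl (fun u _ => h2 u), Fin.sum_univ_eq_sum_range
      (fun u : ℕ => if (v' : ℕ) ≠ u ∧ D (max (v' : ℕ) u) then fvec t v' - fvec t u else 0) n,
      fvec_eig D n t v' t.isLt v'.isLt]
    ring
  have hFF : Fᵀ * F = Matrix.diagonal (fun t : Fin n => ∑ u ∈ range n, fvec t u * fvec t u) := by
    ext s t
    rw [Matrix.mul_apply, ← Equiv.sum_comp σ]
    simp only [F, Matrix.of_apply, Equiv.symm_apply_apply, Matrix.transpose_apply]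
    rw [Fin.sum_univ_eq_sum_range (fun u : ℕ => fvec s u * fvec t u) n]
    by_cases hst : s = t
    · subst hst; rw [Matrix.diagonal_apply_eq]
    · rw [Matrix.diagonal_apply_ne _ hst]
      rcases lt_or_gt_of_ne hst with h | h
      · exact fvec_orth n s t h t.isLt
      · have := fvec_orth n t s h s.isLt
        rw [← this]
        exact Finset.sum_congr rfl fun u _ => mul_comm _ _
  have hdet : IsUnit F.det := by
    rw [isUnit_iff_ne_zero]
    intro h0
    have h1 := congrArg Matrix.det hFF
    rw [Matrix.det_mul, h0, mul_zero, Matrix.det_diagonal] at h1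
    exact (Finset.prod_pos (fun (t : Fin n) _ => fvec_self_pos n t t.isLt)).ne h1
  have hL : G.lapMatrix ℝ = F * Matrix.diagonal (fun t : Fin n => mu D n t) * F⁻¹ := by
    rw [← hLF, Matrix.mul_assoc, Matrix.mul_nonsing_inv F hdet, Matrix.mul_one]
  rw [hL, ← Matrix.charpoly_diagonal]
  exact Matrix.charpoly_units_conj (Matrix.nonsingInvUnit F hdet) _

end Helper376Hull
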