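import Pool.Agent.Helper376.HullB

namespace Helper376Hull

open Finset Matrix

theorem Thr.props {N : ℕ} {lam : ℕ → ℝ} (h : Thr N lam) :
    (∀ i j, i ≤ j → lam j ≤ lam i) ∧ (∀ i, 0 ≤ lam i) ∧ (∀ i, lam i ≤ (N : ℝ) + 1) := by
  induction h with
  | base =>
    refine ⟨fun _ _ _ => le_rfl, fun _ => le_rfl, fun _ => ?_⟩
    simp
  | iso _ ih =>
    refine ⟨ih.1, ih.2.1, fun i => ?_⟩
    have := ih.2.2 i
    push_cast
    linarith
  | @dom N lam hT ih =>
    obtain ⟨h1, h2, h3⟩ := ih
    have hN : (0 : ℝ) ≤ N := Nat.cast_nonneg N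
    have hnn : ∀ i, 0 ≤ domF N lam i := by
      intro i
      unfold domF
      split_ifs
      · linarith
      · linarith [h2 (i - 1)]
      · exact le_rfl
    refine ⟨?_, hnn, ?_⟩
    · intro i j hij
      by_cases hj0 : j = 0
      · have : i = 0 := by omega
        subst hj0; subst this; exact le_rfl
      by_cases hjN : j - 1 < N
      · have ej : domF N lam j = lam (j - 1) + 1 := by
          unfold domF
          rw [if_neg hj0, if_pos hjN]
        rw [ej]
        by_cases hi0 : i = 0
        · subst hi0
          have : domF N lam 0 = (N : ℝ) + 2 := by simp [domF]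
          rw [this]
          linarith [h3 (j - 1)]
        · have ei : domF N lam i = lam (i - 1) + 1 := by
            unfold domF
            rw [if_neg hi0, if_pos (by omega)]
          rw [ei]
          linarith [h1 (i - 1) (j - 1) (by omega)]
      · have ej : domF N lam j = 0 := by
          unfold domF
          rw [if_neg hj0, if_neg hjN]
        rw [ej]
        exact hnn i
    · intro i
      unfold domF
      push_cast
      split_ifs
      · linarith
      · linarith [h3 (i - 1)]
      · linarith

open Classical in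
/-- recursive spectrum -/
noncomputable def lamD (D : ℕ → Prop) : ℕ → (ℕ → ℝ)
  | 0 => fun _ => 0
  | N + 1 => if D (N + 1) then domF N (lamD D N) else lamD D N

theorem thr_lamD (D : ℕ → Prop) (N : ℕ) : Thr N (lamD D N) := by
  induction N with
  | zero => exact Thr.base
  | succ N ih =>
    unfold lamD
    split_ifs
    · exact Thr.dom ih
    · exact Thr.iso ih

open Classical in
theorem mu_succ (D : ℕ → Prop) (n t : ℕ) (ht : t ≠ 0) (htn : t < n) :
    mu D (n + 1) t = mu D n t + (if D n then 1 else 0) := by
  unfold mu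
  rw [if_neg ht, if_neg ht]
  by_cases hD : D n
  · have e : (range (n + 1)).filter (fun d => t < d ∧ D d) =
        insert n ((range n).filter (fun d => t < d ∧ D d)) := by
      rw [Finset.range_add_one, Finset.filter_insert, if_pos ⟨htn, hD⟩]
    rw [e, Finset.card_insert_of_notMem (by simp), if_pos hD]
    push_cast
    ring
  · have e : (range (n + 1)).filter (fun d => t < d ∧ D d) =
        (range n).filter (fun d => t < d ∧ D d) := by
      rw [Finset.range_add_one, Finset.filter_insert, if_neg (fun h => hD h.2)]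
    rw [e, if_neg hD]
    ring

open Classical in
theorem mu_top (D : ℕ → Prop) (n : ℕ) (hn : n ≠ 0) :
    mu D (n + 1) n = if D n then (n : ℝ) + 1 else 0 := by
  unfold mu
  have : (range (n + 1)).filter (fun d => n < d ∧ D d) = ∅ := by
    ext d; simp; omega
  rw [if_neg hn, this]
  simp

theorem range_map_succ {α : Type*} (N : ℕ) (f : ℕ → α) :
    (Multiset.range (N + 1)).map f = f 0 ::ₘ (Multiset.range N).map (fun i => f (i + 1)) := by
  induction N with
  | zero => simp
  | succ N ih =>
    rw [Multiset.range_succ, Multiset.map_cons, ih, Multiset.range_succ, Multiset.map_cons,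
      Multiset.cons_swap]

open Classical in
theorem multiset_lamD (D : ℕ → Prop) (N : ℕ) :
    (Multiset.range N).map (lamD D N) = (Multiset.range N).map (fun t => mu D (N + 1) (t + 1)) := by
  induction N with
  | zero => simp
  | succ N ih =>
    have e1 : (Multiset.range (N + 1)).map (fun t => mu D (N + 1 + 1) (t + 1)) =
        mu D (N + 1 + 1) (N + 1) ::ₘ (Multiset.range N).map
          (fun t => mu D (N + 1) (t + 1) + (if D (N + 1) then 1 else 0)) := by
      rw [Multiset.range_succ, Multiset.map_cons]
      congr 1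
      refine Multiset.map_congr rfl fun t ht => ?_
      rw [Multiset.mem_range] at ht
      rw [mu_succ D (N + 1) (t + 1) (by omega) (by omega)]
    rw [e1, mu_top D (N + 1) (by omega)]
    by_cases hD : D (N + 1)
    · have e2 : lamD D (N + 1) = domF N (lamD D N) := by
        rw [lamD, if_pos hD]
      rw [e2, if_pos hD, range_map_succ]
      have e3 : domF N (lamD D N) 0 = ((N + 1 : ℕ) : ℝ) + 1 := by
        simp [domF]; ring
      rw [e3]
      congr 1
      have e4 : (Multiset.range N).map (fun i => domF N (lamD D N) (i + 1)) =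
          ((Multiset.range N).map (lamD D N)).map (fun r => r + 1) := by
        rw [Multiset.map_map]
        refine Multiset.map_congr rfl fun t ht => ?_
        rw [Multiset.mem_range] at ht
        unfold domF
        rw [if_neg (by omega), Nat.add_sub_cancel, if_pos ht]
        rfl
      rw [e4, ih, Multiset.map_map]
      refine Multiset.map_congr rfl fun t _ => ?_
      simp [hD]
    · have e2 : lamD D (N + 1) = lamD D N := by
        rw [lamD, if_neg hD]
      rw [e2, if_neg hD, Multiset.range_succ, Multiset.map_cons,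
        (thr_lamD D N).zero N le_rfl, ih]
      congr 1
      refine Multiset.map_congr rfl fun t _ => ?_
      simp [hD]

/-- the nonincreasing list of Laplacian eigenvalues of `G` -/
noncomputable def spec {n : ℕ} (G : SimpleGraph (Fin n)) [DecidableRel G.Adj] : Fin n → ℝ :=
  fun i => (G.isHermitian_lapMatrix ℝ).eigenvalues₀ (Fin.cast (Fintype.card_fin n).symm i)

theorem spec_antitone {n : ℕ} (G : SimpleGraph (Fin n)) [DecidableRel G.Adj] :
    Antitone (spec G) := by
  intro i j hij
  exact (G.isHermitian_lapMatrix ℝ).eigenvalues₀_antitone (by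
    rw [Fin.le_def] at hij ⊢
    simpa using hij)

theorem spec_multiset {n : ℕ} (G : SimpleGraph (Fin n)) [DecidableRel G.Adj] :
    (Finset.univ : Finset (Fin n)).val.map (spec G) = (G.lapMatrix ℝ).charpoly.roots := by
  rw [(G.isHermitian_lapMatrix ℝ).roots_charpoly_eq_eigenvalues₀]
  have h : ∀ (m : ℕ) (h : m = n) (f : Fin m → ℝ),
      (Finset.univ : Finset (Fin n)).val.map (fun i => f (Fin.cast h.symm i)) =
        (Finset.univ : Finset (Fin m)).val.map f := by
    intro m h f
    subst h
    rfl
  exact h _ (Fintype.card_fin n) _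

/-- extension by zero -/
def ex {n : ℕ} (x : Fin n → ℝ) : ℕ → ℝ := fun i => if h : i < n then x ⟨i, h⟩ else 0

theorem antitone_unique {n : ℕ} (x y : Fin n → ℝ) (hx : Antitone x) (hy : Antitone y)
    (h : (Finset.univ : Finset (Fin n)).val.map x = (Finset.univ : Finset (Fin n)).val.map y) :
    x = y := by
  rw [Fin.univ_val_map, Fin.univ_val_map, Multiset.coe_eq_coe] at h
  have := List.Perm.eq_of_sortedGE hx.sortedGE_ofFn hy.sortedGE_ofFn h
  exact List.ofFn_injective this

theorem spec_thr {N : ℕ} (G : SimpleGraph (Fin (N + 1))) [DecidableRel G.Adj]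
    (hG : IsThreshold G) : Thr N (ex (spec G)) := by
  obtain ⟨σ, D0, hD0⟩ := hG
  let D : ℕ → Prop := fun d => ∃ h : d < N + 1, D0 ⟨d, h⟩
  have hD : ∀ i j : Fin (N + 1), i < j → (G.Adj (σ i) (σ j) ↔ D j) := by
    intro i j hij
    rw [hD0 i j hij]
    exact ⟨fun h => ⟨j.isLt, h⟩, fun ⟨_, h⟩ => h⟩
  have h1 := charpoly_thr G σ D hD
  have h2 := spec_multiset G
  rw [h1] at h2
  have h3 : (∏ t : Fin (N + 1), (Polynomial.X - Polynomial.C (mu D (N + 1) t))).roots =
      (Finset.univ : Finset (Fin (N + 1))).val.map (fun t : Fin (N + 1) => mu D (N + 1) (t : ℕ)) := by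
    have := Polynomial.roots_multiset_prod_X_sub_C
      ((Finset.univ : Finset (Fin (N + 1))).val.map (fun t : Fin (N + 1) => mu D (N + 1) t))
    rw [Multiset.map_map] at this
    exact this
  rw [h3] at h2
  have key : ∀ f : ℕ → ℝ, (Finset.univ : Finset (Fin (N + 1))).val.map
      (fun t : Fin (N + 1) => f (t : ℕ)) =
      (Multiset.range (N + 1)).map f := by
    intro f
    rw [Fin.univ_val_map]
    have : List.ofFn (fun t : Fin (N + 1) => f t) = (List.range (N + 1)).map f := by
      rw [List.ofFn_eq_map]
      rw [← List.map_coe_finRange_eq_range, List.map_map]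
      rfl
    rw [this]
    rfl
  have hT := thr_lamD D N
  have h4 : (Multiset.range (N + 1)).map (fun t => mu D (N + 1) t) =
      (Multiset.range (N + 1)).map (lamD D N) := by
    rw [range_map_succ, ← multiset_lamD, Multiset.range_succ, Multiset.map_cons,
      hT.zero N le_rfl]
    congr 1
  have h5 : spec G = fun t : Fin (N + 1) => lamD D N t := by
    apply antitone_unique _ _ (spec_antitone G)
    · intro i j hij
      exact hT.props.1 i j hij
    · rw [h2, key (fun t => mu D (N + 1) t), h4, key (lamD D N)]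
  have h6 : ex (spec G) = lamD D N := by
    funext i
    unfold ex
    split_ifs with hi
    · rw [h5]
    · exact (hT.zero i (by omega)).symm
  rw [h6]
  exact hT

theorem sum_ex {n : ℕ} (x : Fin n → ℝ) (k : ℕ) :
    S (ex x) k = ∑ i : Fin n, if (i : ℕ) < k then x i else 0 := by
  have h1 : ∑ i : Fin n, (if (i : ℕ) < k then x i else 0) =
      ∑ i ∈ range n, (if i < k then ex x i else 0) := by
    rw [← Fin.sum_univ_eq_sum_range (fun i => if i < k then ex x i else 0) n]
    refine Finset.sum_congr rfl fun i _ => ?_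
    simp [ex]
  rw [h1, ← Finset.sum_filter]
  unfold S
  have h2 : ∑ i ∈ range k, ex x i = ∑ i ∈ (range k).filter (fun i => i < n), ex x i := by
    rw [Finset.sum_filter]
    refine Finset.sum_congr rfl fun i _ => ?_
    split_ifs with h
    · rfl
    · simp [ex, h]
  rw [h2]
  congr 1
  ext i
  simp
  tauto

/-- the convex hull of the sorted Laplacian spectra of the graphs on `n` vertices -/
noncomputable def hull (n : ℕ) : Set (Fin n → ℝ) :=
  convexHull ℝ {x | ∃ (G : SimpleGraph (Fin n)) (_ : DecidableRel G.Adj), x = spec G}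

/-- the two-parameter Brouwer inequality for sorted spectra on `n` vertices -/
def TwoParam : Prop :=
  ∀ (n : ℕ) (G : SimpleGraph (Fin n)) [DecidableRel G.Adj] (k l : ℕ), k ≤ l → l ≤ n →
    (∑ i : Fin n, if (i : ℕ) < k then spec G i else 0) +
      (∑ i : Fin n, if (i : ℕ) < l then spec G i else 0) ≤
        2 * (G.edgeFinset.card : ℝ) + k * (l + 1)

theorem spec_sum {n : ℕ} (G : SimpleGraph (Fin n)) [DecidableRel G.Adj] :
    ∑ i, spec G i = 2 * (G.edgeFinset.card : ℝ) := by
  have h1 : ∑ i, spec G i = (G.lapMatrix ℝ).trace := by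
    have h2 := spec_multiset G
    have h3 := (G.isHermitian_lapMatrix ℝ).roots_charpoly_eq_eigenvalues
    rw [h3] at h2
    have h4 := congrArg Multiset.sum h2
    have h5 := (G.isHermitian_lapMatrix ℝ).trace_eq_sum_eigenvalues
    rw [h5]
    exact h4
  rw [h1]
  have h2 : (G.lapMatrix ℝ).trace = ∑ v, (G.degree v : ℝ) := by
    simp [Matrix.trace, SimpleGraph.lapMatrix, SimpleGraph.degMatrix]
  rw [h2]
  exact_mod_cast congrArg (fun t : ℕ => (t : ℝ)) (G.sum_degrees_eq_twice_card_edges)

theorem spec_last {N : ℕ} (hTP : TwoParam) (G : SimpleGraph (Fin (N + 1))) [DecidableRel G.Adj] :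
    spec G (Fin.last N) = 0 := by
  -- nonnegative
  have h1 := hTP (N + 1) G 0 N (Nat.zero_le _) (Nat.le_succ _)
  simp only [Nat.not_lt_zero, if_false, Finset.sum_const_zero, zero_add, Nat.cast_zero, zero_mul,
    add_zero] at h1
  rw [← spec_sum G, Fin.sum_univ_castSucc, Fin.sum_univ_castSucc] at h1
  simp only [Fin.val_castSucc, Fin.is_lt, if_true, Fin.val_last, lt_irrefl, if_false,
    add_zero] at h1
  have h2 : 0 ≤ spec G (Fin.last N) := by linarith
  -- zero is an eigenvalue
  have h3 : (0 : ℝ) ∈ (G.lapMatrix ℝ).charpoly.roots := by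
    rw [Polynomial.mem_roots (Matrix.charpoly_monic _).ne_zero, Polynomial.IsRoot.def]
    rw [Matrix.eval_charpoly]
    have : ((Matrix.scalar (Fin (N + 1))) (0 : ℝ) - G.lapMatrix ℝ).det = 0 := by
      refine (Matrix.exists_mulVec_eq_zero_iff).mp ⟨fun _ => 1, ?_, ?_⟩
      · intro h
        have := congrFun h 0
        simp at this
      · rw [map_zero, zero_sub, Matrix.neg_mulVec, SimpleGraph.lapMatrix_mulVec_const_eq_zero,
          neg_zero]
    exact this
  rw [← spec_multiset G, Multiset.mem_map] at h3
  obtain ⟨i, _, hi⟩ := h3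
  exact le_antisymm (hi ▸ spec_antitone G (Fin.le_last i)) h2

theorem spec_Q {N : ℕ} (hTP : TwoParam) (G : SimpleGraph (Fin (N + 1))) [DecidableRel G.Adj] :
    Q N (ex (spec G)) := by
  have h0 : ∀ i, N ≤ i → ex (spec G) i = 0 := by
    intro i hi
    unfold ex
    split_ifs with h
    · have : (⟨i, h⟩ : Fin (N + 1)) = Fin.last N := by
        ext; simp; omega
      rw [this, spec_last hTP G]
    · rfl
  refine ⟨h0, ?_⟩
  intro k l hkl hl
  have h1 := hTP (N + 1) G k l hkl (by omega)
  rw [← sum_ex, ← sum_ex, ← spec_sum G] at h1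
  have h2 : ∑ i, spec G i = S (ex (spec G)) N := by
    have : S (ex (spec G)) (N + 1) = S (ex (spec G)) N := by
      rw [S_succ, h0 N le_rfl, add_zero]
    rw [← this, sum_ex]
    refine Finset.sum_congr rfl fun i _ => ?_
    rw [if_pos i.isLt]
  rw [h2] at h1
  exact h1

theorem S_ex_add {n : ℕ} (x y : Fin n → ℝ) (a b : ℝ) (k : ℕ) :
    S (ex (a • x + b • y)) k = a * S (ex x) k + b * S (ex y) k := by
  unfold S
  rw [Finset.mul_sum, Finset.mul_sum, ← Finset.sum_add_distrib]
  refine Finset.sum_congr rfl fun i _ => ?_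
  unfold ex
  split_ifs
  · simp
  · ring

theorem hull_Q {N : ℕ} (hTP : TwoParam) : ∀ x ∈ hull (N + 1), Q N (ex x) := by
  have hconv : Convex ℝ {x : Fin (N + 1) → ℝ | Q N (ex x)} := by
    intro x hx y hy a b ha hb hab
    refine ⟨?_, ?_⟩
    · intro i hi
      have h1 := hx.1 i hi
      have h2 := hy.1 i hi
      unfold ex at h1 h2 ⊢
      split_ifs with h
      · rw [dif_pos h] at h1 h2
        simp [h1, h2]
      · rfl
    · intro k l hkl hl
      rw [S_ex_add, S_ex_add, S_ex_add]
      have h1 := mul_le_mul_of_nonneg_left (hx.2 k l hkl hl) ha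
      have h2 := mul_le_mul_of_nonneg_left (hy.2 k l hkl hl) hb
      have h3 : (k : ℝ) * (l + 1) = a * ((k : ℝ) * (l + 1)) + b * ((k : ℝ) * (l + 1)) := by
        rw [← add_mul, hab, one_mul]
      rw [h3]
      linarith
  intro x hx
  have : hull (N + 1) ⊆ {x : Fin (N + 1) → ℝ | Q N (ex x)} := by
    apply convexHull_min _ hconv
    rintro x ⟨G, hG, rfl⟩
    exact spec_Q hTP G
  exact this hx

/-- Every threshold graph gives an extreme point of the hull of Laplacian spectra. -/
theorem threshold_extreme (hTP : TwoParam) {n : ℕ} (hn : 1 ≤ n) (G : SimpleGraph (Fin n))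
    [hdec : DecidableRel G.Adj] (hG : IsThreshold G) : spec G ∈ Set.extremePoints ℝ (hull n) := by
  obtain ⟨N, rfl⟩ : ∃ N, n = N + 1 := ⟨n - 1, by omega⟩
  rw [mem_extremePoints_iff_left]
  refine ⟨subset_convexHull ℝ _ ⟨G, hdec, rfl⟩, ?_⟩
  intro y hy z hz hseg
  obtain ⟨a, b, ha, hb, hab, h⟩ := hseg
  have hb' : b = 1 - a := by linarith
  have h1 := (spec_thr G hG).ext (ex y) (ex z) a (hull_Q hTP y hy) (hull_Q hTP z hz) ha
    (by linarith) (by
      intro i
      rw [← h, ← hb']
      unfold ex
      split_ifs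
      · simp
      · ring)
  funext i
  have := congrFun h1 i
  unfold ex at this
  rw [dif_pos i.isLt, dif_pos i.isLt] at this
  exact this

end Helper376Hull
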