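import Mathlib
import Pool.Agent.Helper376.Ball
import Pool.Agent.Helper376.Grp

namespace Pool.Agent.Helper376.DL

/-- `a` or `1`. -/
def pw (e : Bool) : P := if e then a else 1

theorem pw_inv (e : Bool) : (pw e)⁻¹ = pw e := by
  cases e
  · simp [pw]
  · have : a⁻¹ = a := by rw [inv_eq_iff_mul_eq_one]; exact a_sq
    simpa [pw] using this

/-- The generating set. -/
def gens : Set P :=
  {x | ∃ (e f : Bool) (i j : ℤ), (-1 ≤ i ∧ i ≤ 1) ∧ (-1 ≤ j ∧ j ≤ 1) ∧
    (-1 ≤ i + j ∧ i + j ≤ 1) ∧ x = pw e * m i j * pw f}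

theorem gens_finite : gens.Finite := by
  have h : gens ⊆ (fun q : Bool × Bool × ℤ × ℤ => pw q.1 * m q.2.2.1 q.2.2.2 * pw q.2.1) ''
      (Set.univ ×ˢ (Set.univ ×ˢ (Set.Icc (-1) 1 ×ˢ Set.Icc (-1) 1))) := by
    rintro x ⟨e, f, i, j, hi, hj, _, rfl⟩
    exact ⟨(e, f, i, j), ⟨trivial, trivial, ⟨hi.1, hi.2⟩, ⟨hj.1, hj.2⟩⟩, rfl⟩
  refine Set.Finite.subset (Set.Finite.image _ ?_) h
  exact Set.finite_univ.prod (Set.finite_univ.prod ((Set.finite_Icc _ _).prod (Set.finite_Icc _ _)))

theorem one_mem_gens : (1 : P) ∈ gens :=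
  ⟨false, false, 0, 0, by omega, by omega, by omega, by simp [pw, m_zero]⟩

theorem inv_mem_gens {x : P} (h : x ∈ gens) : x⁻¹ ∈ gens := by
  obtain ⟨e, f, i, j, hi, hj, hij, rfl⟩ := h
  refine ⟨f, e, -i, -j, by omega, by omega, by omega, ?_⟩
  rw [mul_inv_rev, mul_inv_rev, pw_inv, pw_inv, m_inv, mul_assoc]

theorem a_mem_gens : a ∈ gens :=
  ⟨true, false, 0, 0, by omega, by omega, by omega, by simp [pw, m_zero]⟩

theorem s_mem_gens : s ∈ gens :=
  ⟨false, false, 1, 0, by omega, by omega, by omega, by simp [pw, m]⟩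

theorem t_mem_gens : t ∈ gens :=
  ⟨false, false, 0, 1, by omega, by omega, by omega, by simp [pw, m]⟩

theorem closure_gens : Subgroup.closure gens = ⊤ := by
  rw [eq_top_iff, ← PresentedGroup.closure_range_of rels]
  apply Subgroup.closure_mono
  rintro _ ⟨i, rfl⟩
  fin_cases i
  · exact a_mem_gens
  · exact s_mem_gens
  · exact t_mem_gens

section action

variable (χ : ℤ → ℤ → ZMod 2)

/-- Toggle. -/
def permA : Equiv.Perm (ℤ × ℤ × ZMod 2) where
  toFun x := (x.1, x.2.1, x.2.2 + χ x.1 x.2.1)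
  invFun x := (x.1, x.2.1, x.2.2 + χ x.1 x.2.1)
  left_inv x := by
    ext <;> simp [add_assoc, CharTwo.add_self_eq_zero]
  right_inv x := by
    ext <;> simp [add_assoc, CharTwo.add_self_eq_zero]

/-- Translation. -/
def permT (i j : ℤ) : Equiv.Perm (ℤ × ℤ × ZMod 2) where
  toFun x := (x.1 - i, x.2.1 - j, x.2.2)
  invFun x := (x.1 + i, x.2.1 + j, x.2.2)
  left_inv x := by ext <;> simp
  right_inv x := by ext <;> simp

theorem permT_mul (i j k l : ℤ) : permT i j * permT k l = permT (i + k) (j + l) := by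
  ext x <;> simp [permT] <;> ring

theorem permT_zero : permT 0 0 = 1 := by
  ext x <;> simp [permT]

theorem permT_inv (i j : ℤ) : (permT i j)⁻¹ = permT (-i) (-j) := by
  rw [inv_eq_iff_mul_eq_one, permT_mul]
  simp [permT_zero]

/-- Images of the generators. -/
def permGen : Fin 3 → Equiv.Perm (ℤ × ℤ × ZMod 2) := ![permA χ, permT 1 0, permT 0 1]

theorem perm_rels (hχ : ∀ i j, χ i (j + 1) = χ i j + χ (i + 1) j) :
    ∀ r ∈ rels, FreeGroup.lift (permGen χ) r = 1 := by
  intro r hr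
  have h2 : ∀ c : ZMod 2, c + c = 0 := fun c => CharTwo.add_self_eq_zero c
  have hsas : ∀ x, (permT 1 0 * permA χ * (permT 1 0)⁻¹) x =
      (x.1, x.2.1, x.2.2 + χ (x.1 + 1) x.2.1) := by
    intro x
    rw [permT_inv]
    simp [permT, permA, Equiv.Perm.mul_apply]
  have htat : ∀ x, (permT 0 1 * permA χ * (permT 0 1)⁻¹) x =
      (x.1, x.2.1, x.2.2 + χ x.1 (x.2.1 + 1)) := by
    intro x
    rw [permT_inv]
    simp [permT, permA, Equiv.Perm.mul_apply]
  simp only [rels, Set.mem_insert_iff, Set.mem_singleton_iff] at hr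
  rcases hr with rfl | rfl | rfl | rfl
  · simp only [map_mul, FreeGroup.lift_apply_of, permGen, Matrix.cons_val_zero]
    ext x <;> simp [permA, add_assoc, h2]
  · simp only [map_mul, map_inv, FreeGroup.lift_apply_of, permGen, Matrix.cons_val_one,
      Matrix.cons_val]
    rw [permT_inv, permT_inv, permT_mul, permT_mul, permT_mul]
    simp [permT_zero]
  · simp only [map_mul, map_inv, FreeGroup.lift_apply_of, permGen, Matrix.cons_val_zero,
      Matrix.cons_val_one, Matrix.cons_val]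
    rw [commute_iff_comm_eq_one]
    apply Equiv.ext
    intro x
    change permA χ ((permT 1 0 * permA χ * (permT 1 0)⁻¹) x) =
      (permT 1 0 * permA χ * (permT 1 0)⁻¹) (permA χ x)
    rw [hsas, hsas]
    simp only [permA, Equiv.coe_fn_mk]
    ext <;> simp [add_right_comm]
  · simp only [map_mul, map_inv, FreeGroup.lift_apply_of, permGen, Matrix.cons_val_zero,
      Matrix.cons_val_one, Matrix.cons_val]
    rw [mul_inv_eq_one]
    apply Equiv.ext
    intro x
    change (permT 0 1 * permA χ * (permT 0 1)⁻¹) x =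
      permA χ ((permT 1 0 * permA χ * (permT 1 0)⁻¹) x)
    rw [htat, hsas]
    simp only [permA, Equiv.coe_fn_mk]
    ext
    · rfl
    · rfl
    · simp only [hχ]
      ring

/-- The action of `P` attached to a function satisfying the three-point relation. -/
def act (hχ : ∀ i j, χ i (j + 1) = χ i j + χ (i + 1) j) : P →* Equiv.Perm (ℤ × ℤ × ZMod 2) :=
  PresentedGroup.toGroup (perm_rels χ hχ)

variable (hχ : ∀ i j, χ i (j + 1) = χ i j + χ (i + 1) j)

theorem act_a : act χ hχ a = permA χ := PresentedGroup.toGroup.of _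
theorem act_s : act χ hχ s = permT 1 0 := PresentedGroup.toGroup.of _
theorem act_t : act χ hχ t = permT 0 1 := PresentedGroup.toGroup.of _

theorem permT_zpow (i j k : ℤ) : (permT i j) ^ k = permT (k * i) (k * j) := by
  induction k using Int.induction_on with
  | zero => simp [permT_zero]
  | succ k ih =>
    rw [zpow_add_one, ih, permT_mul]
    congr 1 <;> ring
  | pred k ih =>
    rw [zpow_sub_one, ih, permT_inv, permT_mul]
    congr 1 <;> ring

theorem act_m (i j : ℤ) : act χ hχ (m i j) = permT i j := by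
  unfold m
  rw [map_mul, map_zpow, map_zpow, act_s, act_t, permT_zpow, permT_zpow, permT_mul]
  congr 1 <;> ring

theorem act_m_apply (i j k l : ℤ) (c : ZMod 2) :
    act χ hχ (m i j) (k, l, c) = (k - i, l - j, c) := by
  rw [act_m]; rfl

theorem act_L_apply (i j k l : ℤ) (c : ZMod 2) :
    act χ hχ (L i j) (k, l, c) = (k, l, c + χ (k + i) (l + j)) := by
  unfold L
  rw [m_inv, map_mul, map_mul, Equiv.Perm.mul_apply, Equiv.Perm.mul_apply, act_m_apply, act_a]
  simp only [permA, Equiv.coe_fn_mk]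
  rw [act_m_apply]
  simp

theorem act_pw_apply (e : Bool) (k l : ℤ) (c : ZMod 2) (h : χ k l = 0) :
    act χ hχ (pw e) (k, l, c) = (k, l, c) := by
  cases e
  · simp [pw]
  · simp only [pw, if_true]
    rw [act_a]
    simp [permA, h]

end action

/-- The path of the cursor attached to a word. -/
theorem exists_path {g : P} {k : ℕ} (hg : g ∈ Ball gens k) :
    ∃ p : ℕ → ℤ × ℤ, p 0 = (0, 0) ∧
      (∀ i < k, (-1 ≤ (p (i + 1)).1 - (p i).1 ∧ (p (i + 1)).1 - (p i).1 ≤ 1) ∧
        (-1 ≤ (p (i + 1)).2 - (p i).2 ∧ (p (i + 1)).2 - (p i).2 ≤ 1) ∧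
        (-1 ≤ (p (i + 1)).1 + (p (i + 1)).2 - (p i).1 - (p i).2 ∧
          (p (i + 1)).1 + (p (i + 1)).2 - (p i).1 - (p i).2 ≤ 1)) ∧
      ∀ (χ : ℤ → ℤ → ZMod 2) (hχ : ∀ i j, χ i (j + 1) = χ i j + χ (i + 1) j),
        (∀ i ≤ k, χ (p i).1 (p i).2 = 0) → ∀ c, act χ hχ g ((p k).1, (p k).2, c) = (0, 0, c) := by
  induction k generalizing g with
  | zero =>
    have : g = 1 := hg
    subst this
    refine ⟨fun _ => (0, 0), rfl, by intro i hi; omega, ?_⟩
    intro χ hχ _ c
    simp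
  | succ k ih =>
    obtain ⟨x, hx, y, ⟨e, f, di, dj, hi, hj, hij, rfl⟩, rfl⟩ := hg
    obtain ⟨p, hp0, hp1, hp2⟩ := ih hx
    refine ⟨fun i => if i ≤ k then p i else ((p k).1 + di, (p k).2 + dj), ?_, ?_, ?_⟩
    · simp [hp0]
    · intro i hik
      by_cases h : i < k
      · have h1 : i + 1 ≤ k := h
        have h2 : i ≤ k := by omega
        simp only [h1, h2, if_true]
        exact hp1 i h
      · have h3 : i = k := by omega
        subst h3
        simp only [le_refl, if_true, Nat.not_succ_le_self, if_false]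
        omega
    · intro χ hχ hz c
      have hk : χ (p k).1 (p k).2 = 0 := by
        have := hz k (by omega)
        simpa using this
      have hk1 : χ ((p k).1 + di) ((p k).2 + dj) = 0 := by
        have := hz (k + 1) (by omega)
        simpa using this
      have hp := hp2 χ hχ (by
        intro i hi
        have := hz i (by omega)
        simpa [hi] using this) c
      simp only [Nat.not_succ_le_self, if_false]
      rw [map_mul, map_mul, map_mul, Equiv.Perm.mul_apply, Equiv.Perm.mul_apply,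
        Equiv.Perm.mul_apply, act_pw_apply _ _ _ _ _ _ hk1, act_m_apply]
      have e1 : (p k).1 + di - di = (p k).1 := by ring
      have e2 : (p k).2 + dj - dj = (p k).2 := by ring
      rw [e1, e2, act_pw_apply _ _ _ _ _ _ hk, hp]

/-- The basic function. -/
noncomputable def c1 (i j : ℤ) : ZMod 2 :=
  if 0 < i then 0 else ((Ring.choose j (-i).toNat : ℤ) : ZMod 2)

theorem c1_pos {i j : ℤ} (h : 0 < i) : c1 i j = 0 := by simp [c1, h]

theorem c1_zero (j : ℤ) : c1 0 j = 1 := by simp [c1]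

theorem c1_rel (i j : ℤ) : c1 i (j + 1) = c1 i j + c1 (i + 1) j := by
  rcases lt_trichotomy i 0 with h | h | h
  · have h1 : ¬ (0 < i) := by omega
    have h2 : ¬ (0 < i + 1) := by omega
    simp only [c1, h1, h2, if_false]
    have h3 : (-i).toNat = (-(i + 1)).toNat + 1 := by omega
    rw [h3, Ring.choose_succ_succ]
    push_cast
    ring
  · subst h
    rw [c1_zero, c1_zero, c1_pos (by norm_num)]
    simp
  · rw [c1_pos h, c1_pos h, c1_pos (by omega)]
    simp

/-- The test element. -/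
def g0 (n : ℕ) : P := L (-n) n * L 0 (-n) * L n 0

theorem lipschitz {k : ℕ} (f : ℕ → ℤ) (h : ∀ i < k, -1 ≤ f (i + 1) - f i ∧ f (i + 1) - f i ≤ 1)
    {i j : ℕ} (hij : i ≤ j) (hj : j ≤ k) : f j - f i ≤ (j : ℤ) - i ∧ f i - f j ≤ (j : ℤ) - i := by
  induction hij with
  | refl => simp
  | @step j hij ih =>
    have h1 := ih (by omega)
    have h2 := h j (by omega)
    rw [Nat.succ_eq_add_one]
    push_cast
    omega

theorem three_visits {n k : ℕ} (f1 f2 f3 : ℕ → ℤ)
    (h1 : ∀ i < k, -1 ≤ f1 (i + 1) - f1 i ∧ f1 (i + 1) - f1 i ≤ 1)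
    (_ : ∀ i < k, -1 ≤ f2 (i + 1) - f2 i ∧ f2 (i + 1) - f2 i ≤ 1)
    (h3 : ∀ i < k, -1 ≤ f3 (i + 1) - f3 i ∧ f3 (i + 1) - f3 i ≤ 1)
    (hsum : ∀ i, f1 i + f2 i + f3 i = 0) (h10 : f1 0 = 0) (h3k : f3 k = 0)
    {i1 i2 i3 : ℕ} (h12 : i1 ≤ i2) (h23 : i2 ≤ i3) (h3k' : i3 ≤ k)
    (b1 : f1 i1 ≤ -n) (b2 : f2 i2 ≤ -n) (b3 : f3 i3 ≤ -n) : 5 * n ≤ k := by
  have a1 := (lipschitz f1 h1 (Nat.zero_le i1) (by omega)).2
  have a2 := (lipschitz f1 h1 h12 (by omega)).1
  have a3 := (lipschitz f3 h3 h23 (by omega)).2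
  have a4 := (lipschitz f3 h3 h3k' (by omega)).1
  have a5 := hsum i2
  push_cast at a1
  omega

theorem lower_bound {n k : ℕ} (hn : 1 ≤ n) (hg : g0 n ∈ Ball gens k) : 5 * n ≤ k := by
  obtain ⟨p, hp0, hstep, hact⟩ := exists_path hg
  have hg0 : ∀ (χ : ℤ → ℤ → ZMod 2) (hχ : ∀ i j, χ i (j + 1) = χ i j + χ (i + 1) j) (k l : ℤ)
      (c : ZMod 2), act χ hχ (g0 n) (k, l, c) =
        (k, l, c + χ (k + n) (l + 0) + χ (k + 0) (l + -n) + χ (k + -n) (l + n)) := by
    intro χ hχ k l c
    unfold g0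
    rw [map_mul, map_mul, Equiv.Perm.mul_apply, Equiv.Perm.mul_apply, act_L_apply, act_L_apply,
      act_L_apply]
  have hpk : p k = (0, 0) := by
    have := hact (fun _ _ => 0) (by simp) (by simp) 0
    rw [hg0] at this
    simp only [Prod.mk.injEq] at this
    ext
    · exact this.1
    · exact this.2.1
  have key : ∀ (χ : ℤ → ℤ → ZMod 2) (_ : ∀ i j, χ i (j + 1) = χ i j + χ (i + 1) j),
      χ n 0 + χ 0 (-n) + χ (-n) n = 1 → ∃ i ≤ k, χ (p i).1 (p i).2 ≠ 0 := by
    intro χ hχ h1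
    by_contra hcon
    push Not at hcon
    have := hact χ hχ hcon 0
    rw [hg0, hpk] at this
    simp only [Prod.mk.injEq, zero_add, true_and] at this
    rw [h1] at this
    exact one_ne_zero this
  have hn' : (1 : ℤ) ≤ n := by exact_mod_cast hn
  obtain ⟨i1, hi1, hc1⟩ := key (fun i j => c1 (i + n) j)
    (by intro i j; have := c1_rel (i + n) j; rw [this]; congr 2; ring)
    (by beta_reduce
        rw [c1_pos (by omega), c1_pos (by omega), neg_add_cancel, c1_zero]; simp)
  obtain ⟨i2, hi2, hc2⟩ := key (fun i j => c1 (j + n) i)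
    (by
      intro i j
      have := c1_rel (j + n) i
      beta_reduce
      rw [this, ← add_assoc, CharTwo.add_self_eq_zero, zero_add]
      congr 1; ring)
    (by beta_reduce
        rw [c1_pos (by omega), neg_add_cancel, c1_zero, c1_pos (by omega)]; simp)
  obtain ⟨i3, hi3, hc3⟩ := key (fun i j => c1 (n - i - j) i)
    (by
      intro i j
      have := c1_rel (n - (i + 1) - j) i
      beta_reduce
      rw [this]
      have e1 : (n : ℤ) - (i + 1) - j + 1 = n - i - j := by ring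
      have e2 : (n : ℤ) - i - (j + 1) = n - (i + 1) - j := by ring
      rw [e1, e2]
      have := CharTwo.add_self_eq_zero (c1 (n - i - j) i)
      calc c1 (n - (i + 1) - j) i = c1 (n - (i + 1) - j) i + 0 := by ring
        _ = c1 (n - (i + 1) - j) i + (c1 (n - i - j) i + c1 (n - i - j) i) := by rw [this]
        _ = _ := by ring)
    (by beta_reduce
        have e1 : (n : ℤ) - n - 0 = 0 := by ring
        rw [e1, c1_zero, c1_pos (by omega), c1_pos (by omega)]; simp)
  have hb1 : (p i1).1 + n ≤ 0 := by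
    by_contra hcon
    exact hc1 (c1_pos (by omega))
  have hb2 : (p i2).2 + n ≤ 0 := by
    by_contra hcon
    exact hc2 (c1_pos (by omega))
  have hb3 : n - (p i3).1 - (p i3).2 ≤ 0 := by
    by_contra hcon
    exact hc3 (c1_pos (by omega))
  have hp01 : (p 0).1 = 0 := by rw [hp0]
  have hp02 : (p 0).2 = 0 := by rw [hp0]
  have hpk1 : (p k).1 = 0 := by rw [hpk]
  have hpk2 : (p k).2 = 0 := by rw [hpk]
  have s1 : ∀ i < k, -1 ≤ (p (i + 1)).1 - (p i).1 ∧ (p (i + 1)).1 - (p i).1 ≤ 1 :=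
    fun i hi => (hstep i hi).1
  have s2 : ∀ i < k, -1 ≤ (p (i + 1)).2 - (p i).2 ∧ (p (i + 1)).2 - (p i).2 ≤ 1 :=
    fun i hi => (hstep i hi).2.1
  have s3 : ∀ i < k, -1 ≤ (-(p (i + 1)).1 - (p (i + 1)).2) - (-(p i).1 - (p i).2) ∧
      (-(p (i + 1)).1 - (p (i + 1)).2) - (-(p i).1 - (p i).2) ≤ 1 :=
    fun i hi => by have := (hstep i hi).2.2; omega
  have T := @three_visits n k
  have r1 : (p i1).1 ≤ -n := by omega
  have r2 : (p i2).2 ≤ -n := by omega
  have r3 : -(p i3).1 - (p i3).2 ≤ -n := by omega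
  have k3 : -(p k).1 - (p k).2 = 0 := by rw [hpk]; simp
  rcases le_total i1 i2 with h12 | h12
  · rcases le_total i2 i3 with h23 | h23
    · exact T (fun i => (p i).1) (fun i => (p i).2) (fun i => -(p i).1 - (p i).2)
        s1 s2 s3 (fun i => by ring) hp01 k3 h12 h23 hi3 r1 r2 r3
    · rcases le_total i1 i3 with h13 | h13
      · exact T (fun i => (p i).1) (fun i => -(p i).1 - (p i).2) (fun i => (p i).2)
          s1 s3 s2 (fun i => by ring) hp01 hpk2 h13 h23 hi2 r1 r3 r2
      · exact T (fun i => -(p i).1 - (p i).2) (fun i => (p i).1) (fun i => (p i).2)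
          s3 s1 s2 (fun i => by ring) (by simp [hp0]) hpk2 h13 h12 hi2 r3 r1 r2
  · rcases le_total i1 i3 with h13 | h13
    · exact T (fun i => (p i).2) (fun i => (p i).1) (fun i => -(p i).1 - (p i).2)
        s2 s1 s3 (fun i => by ring) hp02 k3 h12 h13 hi3 r2 r1 r3
    · rcases le_total i2 i3 with h23 | h23
      · exact T (fun i => (p i).2) (fun i => -(p i).1 - (p i).2) (fun i => (p i).1)
          s2 s3 s1 (fun i => by ring) hp02 hpk1 h23 h13 hi1 r2 r3 r1
      · exact T (fun i => -(p i).1 - (p i).2) (fun i => (p i).2) (fun i => (p i).1)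
          s3 s2 s1 (fun i => by ring) (by simp [hp0]) hpk1 h23 h12 hi1 r3 r2 r1

end Pool.Agent.Helper376.DL
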