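import Mathlib
import Pool.Agent.Helper376.Lower

namespace Pool.Agent.Helper376.DL

/-- Sites of the big triangle. -/
def InT (n : ℕ) (i j : ℤ) : Prop := -(n : ℤ) ≤ i ∧ -(n : ℤ) ≤ j ∧ i + j ≤ n

/-- Lamp along a marking. -/
def LM (M : ℤ → ℤ → P) (i j : ℤ) : P := M i j * a * (M i j)⁻¹

theorem closure_step {A B : Set P} {y x : P} (hB : B ⊆ insert y A)
    (hc : ∀ z ∈ A, Commute z y) (hy : y * y = 1) (hx : x ∈ Subgroup.closure B) :
    ∃ z ∈ Subgroup.closure A, x = z ∨ x = z * y := by
  have hyinv : y⁻¹ = y := by rw [inv_eq_iff_mul_eq_one]; exact hy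
  have hcc : ∀ z ∈ Subgroup.closure A, Commute z y := by
    intro z hz
    induction hz using Subgroup.closure_induction with
    | mem z hz => exact hc z hz
    | one => exact Commute.one_left y
    | mul u v _ _ hu hv => exact hu.mul_left hv
    | inv u _ hu => exact hu.inv_left
  induction hx using Subgroup.closure_induction with
  | mem x hx =>
    rcases hB hx with h | h
    · exact ⟨1, Subgroup.one_mem _, Or.inr (by rw [one_mul]; exact h)⟩
    · exact ⟨x, Subgroup.subset_closure h, Or.inl rfl⟩
  | one => exact ⟨1, Subgroup.one_mem _, Or.inl rfl⟩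
  | mul u v _ _ hu hv =>
    obtain ⟨z, hz, hz'⟩ := hu
    obtain ⟨w, hw, hw'⟩ := hv
    have hwy := (hcc w hw).eq
    refine ⟨z * w, Subgroup.mul_mem _ hz hw, ?_⟩
    rcases hz' with rfl | rfl <;> rcases hw' with rfl | rfl
    · exact Or.inl rfl
    · exact Or.inr (by rw [mul_assoc])
    · refine Or.inr ?_
      rw [mul_assoc, ← hwy, mul_assoc]
    · refine Or.inl ?_
      calc z * y * (w * y) = z * (y * w) * y := by group
        _ = z * (w * y) * y := by rw [hwy]
        _ = z * w * (y * y) := by group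
        _ = z * w := by rw [hy, mul_one]
  | inv u _ hu =>
    obtain ⟨z, hz, hz'⟩ := hu
    refine ⟨z⁻¹, Subgroup.inv_mem _ hz, ?_⟩
    rcases hz' with rfl | rfl
    · exact Or.inl rfl
    · refine Or.inr ?_
      rw [mul_inv_rev, hyinv]
      exact ((hcc z hz).inv_left).eq.symm

theorem int_spread {Q : ℤ → Prop} {lo hi b0 : ℤ} (h : ∀ b, lo ≤ b → b ≤ hi → (Q b ↔ Q (b + 1)))
    (h0 : Q b0) (hlo : lo ≤ b0) (hhi : b0 ≤ hi + 1) : ∀ b, lo ≤ b → b ≤ hi + 1 → Q b := by
  have up : ∀ k : ℕ, b0 + k ≤ hi + 1 → Q (b0 + k) := by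
    intro k
    induction k with
    | zero => intro _; simpa using h0
    | succ k ih =>
      intro hk
      push_cast at hk ⊢
      rw [← add_assoc]
      exact (h (b0 + k) (by omega) (by omega)).1 (ih (by omega))
  have down : ∀ k : ℕ, lo ≤ b0 - k → Q (b0 - k) := by
    intro k
    induction k with
    | zero => intro _; simpa using h0
    | succ k ih =>
      intro hk
      push_cast at hk ⊢
      have := (h (b0 - (k + 1)) (by omega) (by omega)).2
      apply this
      have e : b0 - ((k : ℤ) + 1) + 1 = b0 - k := by ring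
      rw [e]
      exact ih (by omega)
  intro b hb1 hb2
  rcases le_total b0 b with h1 | h1
  · have := up (b - b0).toNat (by omega)
    rw [Int.toNat_of_nonneg (by omega)] at this
    simpa using this
  · have := down (b0 - b).toNat (by omega)
    rw [Int.toNat_of_nonneg (by omega)] at this
    simpa using this

section marking

variable (M : ℤ → ℤ → P) (H0 : M 0 0 = 1)
  (Hrel : ∀ i j, LM M i j * LM M (i + 1) j * LM M i (j + 1) = 1)
  (Hcomm : ∀ i j k l, Commute (LM M i j) (LM M k l))
  (Hsq : ∀ i j, LM M i j * LM M i j = 1)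
  (Hstep : ∀ i j di dj : ℤ, (-1 ≤ di ∧ di ≤ 1) → (-1 ≤ dj ∧ dj ≤ 1) →
    (-1 ≤ di + dj ∧ di + dj ≤ 1) → ∀ f, (M i j)⁻¹ * M (i + di) (j + dj) * pw f ∈ gens)

include H0 Hcomm Hsq Hstep in
theorem path_ball (p : ℕ → ℤ × ℤ) (hp0 : p 0 = (0, 0))
    (hstep : ∀ k, ∃ di dj : ℤ, (-1 ≤ di ∧ di ≤ 1) ∧ (-1 ≤ dj ∧ dj ≤ 1) ∧
      (-1 ≤ di + dj ∧ di + dj ≤ 1) ∧ p (k + 1) = ((p k).1 + di, (p k).2 + dj)) (K : ℕ) :
    ∀ x ∈ Subgroup.closure {y | ∃ i ≤ K, y = LM M (p i).1 (p i).2},
      x * M (p K).1 (p K).2 ∈ Ball gens (K + 1) := by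
  induction K with
  | zero =>
    intro x hx
    obtain ⟨z, hz, hz'⟩ := closure_step (A := ∅) (y := LM M (p 0).1 (p 0).2) (by
      rintro y ⟨i, hi, rfl⟩
      have : i = 0 := by omega
      subst this
      simp) (by simp) (Hsq _ _) hx
    rw [Subgroup.closure_empty, Subgroup.mem_bot] at hz
    subst hz
    rw [hp0] at hz' ⊢
    have e : LM M 0 0 = a := by simp [LM, H0]
    simp only [H0, mul_one, e, one_mul] at hz' ⊢
    rcases hz' with rfl | rfl
    · exact ⟨1, rfl, 1, one_mem_gens, by simp⟩
    · exact ⟨1, rfl, a, a_mem_gens, by simp⟩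
  | succ K ih =>
    intro x hx
    obtain ⟨z, hz, hz'⟩ := closure_step (A := {y | ∃ i ≤ K, y = LM M (p i).1 (p i).2})
      (y := LM M (p (K + 1)).1 (p (K + 1)).2) (by
      rintro y ⟨i, hi, rfl⟩
      rcases Nat.lt_or_ge i (K + 1) with h | h
      · exact Or.inr ⟨i, by omega, rfl⟩
      · have : i = K + 1 := by omega
        subst this
        exact Or.inl rfl) (by
      rintro z ⟨i, hi, rfl⟩
      exact Hcomm _ _ _ _) (Hsq _ _) hx
    have hb := ih z hz
    obtain ⟨di, dj, h1, h2, h3, h4⟩ := hstep K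
    have hg := Hstep (p K).1 (p K).2 di dj h1 h2 h3
    rw [h4]
    rw [h4] at hz'
    simp only [] at hz' ⊢
    rcases hz' with rfl | rfl
    · have := ball_succ hb (hg false)
      have e : x * M (p K).1 (p K).2 * ((M (p K).1 (p K).2)⁻¹ * M ((p K).1 + di) ((p K).2 + dj) *
          pw false) = x * M ((p K).1 + di) ((p K).2 + dj) := by
        simp only [pw, Bool.false_eq_true, if_false]; group
      rwa [e] at this
    · have := ball_succ hb (hg true)
      have e : z * M (p K).1 (p K).2 * ((M (p K).1 (p K).2)⁻¹ * M ((p K).1 + di) ((p K).2 + dj) *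
          pw true) = z * LM M ((p K).1 + di) ((p K).2 + dj) * M ((p K).1 + di) ((p K).2 + dj) := by
        simp only [pw, if_true, LM]; group
      rwa [e] at this

include Hrel in
theorem rel1 (W : Subgroup P) (i b : ℤ) (h : LM M (i + 1) b ∈ W) :
    LM M i b ∈ W ↔ LM M i (b + 1) ∈ W := by
  have e := Hrel i b
  constructor
  · intro h1
    have : LM M i (b + 1) = (LM M i b * LM M (i + 1) b)⁻¹ := (inv_eq_of_mul_eq_one_right e).symm
    rw [this]
    exact W.inv_mem (W.mul_mem h1 h)
  · intro h1
    have : LM M i b = (LM M (i + 1) b * LM M i (b + 1))⁻¹ := by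
      rw [mul_assoc] at e
      exact (inv_eq_of_mul_eq_one_left e).symm
    rw [this]
    exact W.inv_mem (W.mul_mem h h1)

include Hrel in
theorem rel2 (W : Subgroup P) (i b : ℤ) (h : LM M i (b + 1) ∈ W) :
    LM M i b ∈ W ↔ LM M (i + 1) b ∈ W := by
  have e := Hrel i b
  have e2 : LM M i (b + 1) = (LM M i b * LM M (i + 1) b)⁻¹ :=
    (inv_eq_of_mul_eq_one_right e).symm
  have h3 : LM M i b * LM M (i + 1) b ∈ W := by
    have := W.inv_mem h
    rwa [e2, inv_inv] at this
  constructor
  · intro h1
    have := W.mul_mem (W.inv_mem h1) h3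
    simpa using this
  · intro h1
    have := W.mul_mem h3 (W.inv_mem h1)
    simpa using this

/-- The route. -/
def route (n : ℕ) (b : ℤ) (k : ℕ) : ℤ × ℤ :=
  if k ≤ n then ((k : ℤ), -(k : ℤ))
  else if k ≤ 2 * n then ((n : ℤ), (k : ℤ) - 2 * n)
  else (3 * (n : ℤ) - k, min ((k : ℤ) - 2 * n) b)

theorem route_step (n : ℕ) (b : ℤ) (hb : 0 ≤ b) (k : ℕ) :
    ∃ di dj : ℤ, (-1 ≤ di ∧ di ≤ 1) ∧ (-1 ≤ dj ∧ dj ≤ 1) ∧
      (-1 ≤ di + dj ∧ di + dj ≤ 1) ∧
      route n b (k + 1) = ((route n b k).1 + di, (route n b k).2 + dj) := by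
  refine ⟨(route n b (k + 1)).1 - (route n b k).1, (route n b (k + 1)).2 - (route n b k).2,
    ?_, ?_, ?_, ?_⟩
  · unfold route; split_ifs <;> simp only [] <;> push_cast <;> omega
  · unfold route; split_ifs <;> simp only [] <;> push_cast <;> omega
  · unfold route; split_ifs <;> simp only [] <;> push_cast <;> omega
  · ext <;> simp

include Hrel in
theorem span_route (n : ℕ) (b : ℤ) (hb : 0 ≤ b) (W : Subgroup P)
    (hW : ∀ k ≤ 4 * n, LM M (route n b k).1 (route n b k).2 ∈ W) (i j : ℤ) (hij : InT n i j) :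
    LM M i j ∈ W := by
  have claim1 : ∀ r : ℕ, r ≤ 2 * n → ∀ c : ℤ, 0 ≤ c → c ≤ r → LM M (n - r) c ∈ W := by
    intro r
    induction r with
    | zero =>
      intro _ c hc1 hc2
      have h := hW (2 * n) (by omega)
      have e : route n b (2 * n) = ((n : ℤ), 0) := by
        unfold route
        split_ifs with h1 h2
        · have : n = 0 := by omega
          subst this; simp
        · ext <;> simp
        · exfalso; omega
      rw [e] at h
      have : c = 0 := by push_cast at hc2; omega
      subst this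
      simpa using h
    | succ r ih =>
      intro hr c hc1 hc2
      have ih' := ih (by omega)
      have h := hW (2 * n + (r + 1)) (by omega)
      have e : route n b (2 * n + (r + 1)) = ((n : ℤ) - (r + 1 : ℕ), min ((r : ℤ) + 1) b) := by
        unfold route
        split_ifs with h1 h2
        · exfalso; omega
        · exfalso; omega
        · ext
          · push_cast; ring
          · push_cast; congr 1; ring
      rw [e] at h
      refine int_spread (Q := fun c => LM M (n - (r + 1 : ℕ)) c ∈ W) (lo := 0) (hi := r)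
        (b0 := min ((r : ℤ) + 1) b) ?_ h (by omega) (by omega) c hc1 (by push_cast at hc2; omega)
      intro c hc1 hc2
      refine rel1 M Hrel W _ c ?_
      have e3 : (n : ℤ) - (r + 1 : ℕ) + 1 = n - r := by push_cast; ring
      rw [e3]
      exact ih' c hc1 hc2
  have claim2 : ∀ r : ℕ, r ≤ n → ∀ c : ℤ, -(n : ℤ) ≤ c → c ≤ n + r → LM M c (-(r : ℤ)) ∈ W := by
    intro r
    induction r with
    | zero =>
      intro _ c hc1 hc2
      have := claim1 (n - c).toNat (by omega) 0 le_rfl (by omega)
      rw [Int.toNat_of_nonneg (by push_cast at hc2; omega)] at this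
      simpa using this
    | succ r ih =>
      intro hr c hc1 hc2
      have ih' := ih (by omega)
      have h := hW (r + 1) (by omega)
      have e : route n b (r + 1) = (((r + 1 : ℕ) : ℤ), -((r + 1 : ℕ) : ℤ)) := by
        unfold route
        rw [if_pos hr]
      rw [e] at h
      refine int_spread (Q := fun c => LM M c (-((r + 1 : ℕ) : ℤ)) ∈ W) (lo := -(n : ℤ))
        (hi := n + r) (b0 := ((r + 1 : ℕ) : ℤ)) ?_ h (by omega) (by push_cast; omega) c hc1
        (by push_cast at hc2; omega)
      intro c hc1 hc2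
      refine rel2 M Hrel W c _ ?_
      have e3 : -((r + 1 : ℕ) : ℤ) + 1 = -(r : ℤ) := by push_cast; ring
      rw [e3]
      exact ih' c hc1 hc2
  obtain ⟨h1, h2, h3⟩ := hij
  rcases le_total 0 j with hj | hj
  · have := claim1 (n - i).toNat (by omega) j hj (by omega)
    rw [Int.toNat_of_nonneg (by omega)] at this
    simpa using this
  · have := claim2 (-j).toNat (by omega) i h1 (by omega)
    rw [Int.toNat_of_nonneg (by omega)] at this
    simpa using this

include H0 Hrel Hcomm Hsq Hstep in
theorem exit_generic (n : ℕ) (b : ℤ) (hb : 0 ≤ b) (hb2 : b ≤ 2 * n) (x : P)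
    (hx : x ∈ Subgroup.closure {y | ∃ i j, InT n i j ∧ y = LM M i j}) :
    x * M (-n) b ∈ Ball gens (4 * n + 1) := by
  have h := path_ball M H0 Hcomm Hsq Hstep (route n b) (by simp [route]) (route_step n b hb) (4 * n)
    x ?_
  · have e : route n b (4 * n) = (-(n : ℤ), b) := by
      unfold route
      split_ifs with h1 h2
      · have : n = 0 := by omega
        subst this
        have : b = 0 := by push_cast at hb2; omega
        subst this; simp
      · have : n = 0 := by omega
        subst this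
        have : b = 0 := by push_cast at hb2; omega
        subst this; simp
      · ext
        · push_cast; ring
        · push_cast
          have e4 : (4 : ℤ) * n - 2 * n = 2 * n := by ring
          rw [e4]
          exact min_eq_right hb2
    rw [e] at h
    exact h
  · have : Subgroup.closure {y | ∃ i j, InT n i j ∧ y = LM M i j} ≤
        Subgroup.closure {y | ∃ i ≤ 4 * n, y = LM M (route n b i).1 (route n b i).2} := by
      rw [Subgroup.closure_le]
      rintro y ⟨i, j, hij, rfl⟩
      refine span_route M Hrel n b hb _ ?_ i j hij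
      intro k hk
      exact Subgroup.subset_closure ⟨k, hk, rfl⟩
    exact this hx

end marking

end Pool.Agent.Helper376.DL
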