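import Mathlib
import Pool.Agent.Helper376.Upper

namespace Pool.Agent.Helper376.DL

theorem tri (i j : ℤ) : L i j * L (i + 1) j * L i (j + 1) = 1 := by
  rw [← L_rel, L_sq]

theorem tri_213 (i j : ℤ) : L (i + 1) j * L i j * L i (j + 1) = 1 := by
  rw [(L_comm (i + 1) j i j).eq]; exact tri i j

theorem tri_132 (i j : ℤ) : L i j * L i (j + 1) * L (i + 1) j = 1 := by
  rw [mul_assoc, (L_comm i (j + 1) (i + 1) j).eq, ← mul_assoc]; exact tri i j

theorem tri_231 (i j : ℤ) : L (i + 1) j * L i (j + 1) * L i j = 1 := by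
  rw [mul_assoc, (L_comm i (j + 1) i j).eq, ← mul_assoc]; exact tri_213 i j

theorem tri_312 (i j : ℤ) : L i (j + 1) * L i j * L (i + 1) j = 1 := by
  rw [(L_comm i (j + 1) i j).eq]; exact tri_132 i j

theorem tri_321 (i j : ℤ) : L i (j + 1) * L (i + 1) j * L i j = 1 := by
  rw [(L_comm i (j + 1) (i + 1) j).eq]; exact tri_231 i j

/-- The lamps of the big triangle. -/
def NT (n : ℕ) : Subgroup P := Subgroup.closure {y | ∃ i j, InT n i j ∧ y = L i j}

theorem exit_lin (A B : ℤ → ℤ → ℤ) (hA0 : A 0 0 = 0) (hB0 : B 0 0 = 0)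
    (hA : ∀ i j k l, A (i + k) (j + l) = A i j + A k l)
    (hB : ∀ i j k l, B (i + k) (j + l) = B i j + B k l)
    (hbd : ∀ k l : ℤ, (-1 ≤ k ∧ k ≤ 1) → (-1 ≤ l ∧ l ≤ 1) → (-1 ≤ k + l ∧ k + l ≤ 1) →
      (-1 ≤ A k l ∧ A k l ≤ 1) ∧ (-1 ≤ B k l ∧ B k l ≤ 1) ∧ (-1 ≤ A k l + B k l ∧ A k l + B k l ≤ 1))
    (hrel : ∀ i j, L (A i j) (B i j) * L (A (i + 1) j) (B (i + 1) j) *
      L (A i (j + 1)) (B i (j + 1)) = 1)
    (n : ℕ) (hT : ∀ i j, InT n i j → ∃ k l, InT n k l ∧ A k l = i ∧ B k l = j)
    (b : ℤ) (hb : 0 ≤ b) (hb2 : b ≤ 2 * n) (x : P) (hx : x ∈ NT n) :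
    x * m (A (-n) b) (B (-n) b) ∈ Ball gens (4 * n + 1) := by
  refine exit_generic (fun i j => m (A i j) (B i j)) ?_ hrel ?_ ?_ ?_ n b hb hb2 x ?_
  · simp only [hA0, hB0, m_zero]
  · intro i j k l
    exact L_comm _ _ _ _
  · intro i j
    exact L_sq _ _
  · intro i j k l h1 h2 h3 f
    simp only [hA, hB]
    obtain ⟨c1, c2, c3⟩ := hbd k l h1 h2 h3
    refine ⟨false, f, A k l, B k l, c1, c2, c3, ?_⟩
    rw [← m_mul]
    simp [pw]
  · unfold NT at hx
    refine Subgroup.closure_mono ?_ hx
    rintro y ⟨i, j, hij, rfl⟩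
    obtain ⟨k, l, hkl, rfl, rfl⟩ := hT i j hij
    exact ⟨k, l, hkl, rfl⟩

theorem exit_all (n : ℕ) (i j : ℤ) (hij : InT n i j) (hbd : i = -n ∨ j = -n ∨ i + j = n)
    (x : P) (hx : x ∈ NT n) : x * m i j ∈ Ball gens (4 * n + 1) := by
  obtain ⟨h1, h2, h3⟩ := hij
  rcases hbd with rfl | rfl | h
  · rcases le_total 0 j with hj | hj
    · exact exit_lin (fun i _ => i) (fun _ j => j) rfl rfl (fun _ _ _ _ => rfl)
        (fun _ _ _ _ => rfl) (fun k l h1 h2 h3 => ⟨h1, h2, h3⟩) tri n
        (fun i j h => ⟨i, j, h, rfl, rfl⟩) j hj (by omega) x hx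
    · have := exit_lin (fun i _ => i) (fun i j => -i - j) rfl rfl (fun _ _ _ _ => rfl)
        (fun _ _ _ _ => by ring) (fun k l h1 h2 h3 => by omega)
        (fun i j => by
          have := tri_231 i (-i - j - 1)
          have e1 : -i - j - 1 + 1 = -i - j := by ring
          have e2 : -(i + 1) - j = -i - j - 1 := by ring
          have e3 : -i - (j + 1) = -i - j - 1 := by ring
          rw [e1] at this
          rw [e2, e3]
          rw [(L_comm i (-i - j) (i + 1) (-i - j - 1)).eq]
          exact this) n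
        (fun i j h => ⟨i, -i - j, by unfold InT at *; omega, rfl, by ring⟩) (n - j) (by omega)
        (by omega) x hx
      have e : -(-(n : ℤ)) - (n - j) = j := by ring
      simp only [e] at this
      exact this
  · rcases le_total 0 i with hi | hi
    · exact exit_lin (fun _ j => j) (fun i _ => i) rfl rfl (fun _ _ _ _ => rfl)
        (fun _ _ _ _ => rfl) (fun k l h1 h2 h3 => by omega) (fun i j => tri_132 j i) n
        (fun i j h => ⟨j, i, by unfold InT at *; omega, rfl, rfl⟩) i hi (by omega) x hx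
    · have := exit_lin (fun i j => -i - j) (fun i _ => i) rfl rfl (fun _ _ _ _ => by ring)
        (fun _ _ _ _ => rfl) (fun k l h1 h2 h3 => by omega)
        (fun i j => by
          have := tri_231 (-i - j - 1) i
          have e1 : -i - j - 1 + 1 = -i - j := by ring
          have e2 : -(i + 1) - j = -i - j - 1 := by ring
          have e3 : -i - (j + 1) = -i - j - 1 := by ring
          rw [e1] at this
          rw [e2, e3]
          exact this) n
        (fun i j h => ⟨j, -i - j, by unfold InT at *; omega, by ring, rfl⟩) (n - i) (by omega)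
        (by omega) x hx
      have e : -(-(n : ℤ)) - (n - i) = i := by ring
      simp only [e] at this
      exact this
  · rcases le_total 0 j with hj | hj
    · have := exit_lin (fun i j => -i - j) (fun _ j => j) rfl rfl (fun _ _ _ _ => by ring)
        (fun _ _ _ _ => rfl) (fun k l h1 h2 h3 => by omega)
        (fun i j => by
          have := tri_213 (-i - j - 1) j
          have e1 : -i - j - 1 + 1 = -i - j := by ring
          have e2 : -(i + 1) - j = -i - j - 1 := by ring
          have e3 : -i - (j + 1) = -i - j - 1 := by ring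
          rw [e1] at this
          rw [e2, e3]
          exact this) n
        (fun i j h => ⟨-i - j, j, by unfold InT at *; omega, by ring, rfl⟩) j hj
        (by omega) x hx
      have e : -(-(n : ℤ)) - j = i := by omega
      simp only [e] at this
      exact this
    · have := exit_lin (fun _ j => j) (fun i j => -i - j) rfl rfl (fun _ _ _ _ => rfl)
        (fun _ _ _ _ => by ring) (fun k l h1 h2 h3 => by omega)
        (fun i j => by
          have := tri_312 j (-i - j - 1)
          have e1 : -i - j - 1 + 1 = -i - j := by ring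
          have e2 : -(i + 1) - j = -i - j - 1 := by ring
          have e3 : -i - (j + 1) = -i - j - 1 := by ring
          rw [e1] at this
          rw [e2, e3]
          exact this) n
        (fun i j h => ⟨-i - j, i, by unfold InT at *; omega, rfl, by ring⟩) i (by omega)
        (by omega) x hx
      have e : -(-(n : ℤ)) - i = j := by omega
      simp only [e] at this
      exact this

/-- The pocket. -/
def Pocket (n : ℕ) : Set P := {g | ∃ i j, InT n i j ∧ ∃ x ∈ NT n, g = x * m i j}

theorem mem_NT {n : ℕ} {i j : ℤ} (h : InT n i j) : L i j ∈ NT n :=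
  Subgroup.subset_closure ⟨i, j, h, rfl⟩

theorem pocket_exit {n : ℕ} {g y : P} (hg : g ∈ Pocket n) (hy : y ∈ gens)
    (hgy : g * y ∉ Pocket n) : g ∈ Ball gens (4 * n + 1) := by
  obtain ⟨i, j, hij, x, hx, rfl⟩ := hg
  obtain ⟨e, f, k, l, hk, hl, hkl, rfl⟩ := hy
  have hlamp : ∀ (e : Bool) (i j : ℤ), InT n i j → m i j * pw e * (m i j)⁻¹ ∈ NT n := by
    intro e i j h
    cases e
    · simp [pw, Subgroup.one_mem]
    · exact mem_NT h
  apply exit_all n i j hij _ x hx
  by_contra hcon
  push Not at hcon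
  apply hgy
  have hT : InT n (i + k) (j + l) := by
    unfold InT at *
    omega
  refine ⟨i + k, j + l, hT, x * (m i j * pw e * (m i j)⁻¹) *
    (m (i + k) (j + l) * pw f * (m (i + k) (j + l))⁻¹),
    mul_mem (mul_mem hx (hlamp e i j hij)) (hlamp f _ _ hT), ?_⟩
  rw [← m_mul]
  group

theorem g0_mem_pocket (n : ℕ) : g0 n ∈ Pocket n := by
  refine ⟨0, 0, by unfold InT; omega, g0 n, ?_, by simp [m_zero]⟩
  refine mul_mem (mul_mem (mem_NT ?_) (mem_NT ?_)) (mem_NT ?_) <;> unfold InT <;> omega

theorem m_mem_ball (k l : ℕ) (i j : ℤ) (hi : i.natAbs ≤ k) (hj : j.natAbs ≤ l) :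
    m i j ∈ Ball gens (k + l) := by
  have h1 : ∀ k : ℕ, ∀ i : ℤ, i.natAbs ≤ k → m i 0 ∈ Ball gens k := by
    intro k
    induction k with
    | zero =>
      intro i hi
      have : i = 0 := by omega
      subst this
      rw [m_zero]; rfl
    | succ k ih =>
      intro i hi
      have h0 : ∃ d : ℤ, (-1 ≤ d ∧ d ≤ 1) ∧ (i - d).natAbs ≤ k := by
        rcases lt_trichotomy i 0 with h | h | h
        · exact ⟨-1, by omega, by omega⟩
        · exact ⟨0, by omega, by omega⟩
        · exact ⟨1, by omega, by omega⟩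
      obtain ⟨d, hd, hd2⟩ := h0
      refine ⟨m (i - d) 0, ih _ hd2, m d 0, ⟨false, false, d, 0, hd, by omega, by omega, ?_⟩, ?_⟩
      · simp [pw]
      · rw [m_mul]; simp
  have h2 : ∀ k : ℕ, ∀ i : ℤ, i.natAbs ≤ k → m 0 i ∈ Ball gens k := by
    intro k
    induction k with
    | zero =>
      intro i hi
      have : i = 0 := by omega
      subst this
      rw [m_zero]; rfl
    | succ k ih =>
      intro i hi
      have h0 : ∃ d : ℤ, (-1 ≤ d ∧ d ≤ 1) ∧ (i - d).natAbs ≤ k := by
        rcases lt_trichotomy i 0 with h | h | h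
        · exact ⟨-1, by omega, by omega⟩
        · exact ⟨0, by omega, by omega⟩
        · exact ⟨1, by omega, by omega⟩
      obtain ⟨d, hd, hd2⟩ := h0
      refine ⟨m 0 (i - d), ih _ hd2, m 0 d, ⟨false, false, 0, d, by omega, hd, by omega, ?_⟩, ?_⟩
      · simp [pw]
      · rw [m_mul]; simp
  have := ball_add (h1 k i hi) (h2 l j hj)
  rw [m_mul] at this
  simpa using this

theorem pocket_bdd {n : ℕ} {g : P} (hg : g ∈ Pocket n) : g ∈ Ball gens (4 * n + 1 + (3 * n + 2 * n)) := by
  obtain ⟨i, j, hij, x, hx, rfl⟩ := hg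
  have h1 := exit_all n (-n) 0 (by unfold InT; omega) (Or.inl rfl) x hx
  have h2 := m_mem_ball (3 * n) (2 * n) (i + n) j (by unfold InT at hij; omega)
    (by unfold InT at hij; omega)
  have := ball_add h1 h2
  rw [mul_assoc, m_mul] at this
  simpa using this

end Pool.Agent.Helper376.DL
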