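import Mathlib
import Pool.Agent.Helper376.Pocket

namespace Pool.Agent.Helper376.DL

open Classical in
/-- The generating set as a finset. -/
noncomputable def S : Finset P := gens_finite.toFinset

theorem coe_S : (S : Set P) = gens := by simp [S]

theorem mem_S {x : P} : x ∈ S ↔ x ∈ gens := by rw [← Finset.mem_coe, coe_S]

theorem S_one : (1 : P) ∈ S := mem_S.2 one_mem_gens

theorem S_sym : ∀ x ∈ S, x⁻¹ ∈ S := fun _ hx => mem_S.2 (inv_mem_gens (mem_S.1 hx))

theorem S_gen : Subgroup.closure (S : Set P) = ⊤ := by rw [coe_S]; exact closure_gens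

open Classical in
/-- `S × {1} ∪ {1} × S`. -/
noncomputable def Sperp : Finset (P × P) := (S ×ˢ {1}) ∪ ({1} ×ˢ S)

/-- `S × S`. -/
noncomputable def Svee : Finset (P × P) := S ×ˢ S

theorem mem_Sperp {x : P × P} : x ∈ Sperp ↔ (x.1 ∈ S ∧ x.2 = 1) ∨ (x.1 = 1 ∧ x.2 ∈ S) := by
  unfold Sperp
  simp only [Finset.mem_union, Finset.mem_product, Finset.mem_singleton]

theorem mem_Svee {x : P × P} : x ∈ Svee ↔ x.1 ∈ S ∧ x.2 ∈ S := by
  simp [Svee, Finset.mem_product]

theorem Sperp_one : (1 : P × P) ∈ Sperp := mem_Sperp.2 (Or.inl ⟨S_one, rfl⟩)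

theorem Svee_one : (1 : P × P) ∈ Svee := mem_Svee.2 ⟨S_one, S_one⟩

theorem Sperp_sym : ∀ x ∈ Sperp, x⁻¹ ∈ Sperp := by
  intro x hx
  rw [mem_Sperp] at hx ⊢
  rcases hx with ⟨h1, h2⟩ | ⟨h1, h2⟩
  · exact Or.inl ⟨S_sym _ h1, by simp [h2]⟩
  · exact Or.inr ⟨by simp [h1], S_sym _ h2⟩

theorem Svee_sym : ∀ x ∈ Svee, x⁻¹ ∈ Svee := by
  intro x hx
  rw [mem_Svee] at hx ⊢
  exact ⟨S_sym _ hx.1, S_sym _ hx.2⟩

theorem Sperp_gen : Subgroup.closure (Sperp : Set (P × P)) = ⊤ := by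
  rw [eq_top_iff]
  have h1 : ∀ g : P, (g, (1 : P)) ∈ Subgroup.closure (Sperp : Set (P × P)) := by
    intro g
    have hg : g ∈ Subgroup.closure (S : Set P) := by rw [S_gen]; trivial
    induction hg using Subgroup.closure_induction with
    | mem x hx => exact Subgroup.subset_closure (mem_Sperp.2 (Or.inl ⟨hx, rfl⟩))
    | one => exact Subgroup.one_mem _
    | mul x y _ _ hx hy => simpa using Subgroup.mul_mem _ hx hy
    | inv x _ hx => simpa using Subgroup.inv_mem _ hx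
  have h2 : ∀ g : P, ((1 : P), g) ∈ Subgroup.closure (Sperp : Set (P × P)) := by
    intro g
    have hg : g ∈ Subgroup.closure (S : Set P) := by rw [S_gen]; trivial
    induction hg using Subgroup.closure_induction with
    | mem x hx => exact Subgroup.subset_closure (mem_Sperp.2 (Or.inr ⟨rfl, hx⟩))
    | one => exact Subgroup.one_mem _
    | mul x y _ _ hx hy => simpa using Subgroup.mul_mem _ hx hy
    | inv x _ hx => simpa using Subgroup.inv_mem _ hx
  rintro ⟨x, y⟩ _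
  simpa using Subgroup.mul_mem _ (h1 x) (h2 y)

theorem Svee_gen : Subgroup.closure (Svee : Set (P × P)) = ⊤ := by
  rw [eq_top_iff, ← Sperp_gen]
  apply Subgroup.closure_mono
  intro x hx
  have hx' := mem_Sperp.1 (Finset.mem_coe.1 hx)
  rw [Finset.mem_coe, mem_Svee]
  rcases hx' with ⟨h1, h2⟩ | ⟨h1, h2⟩
  · exact ⟨h1, by rw [h2]; exact S_one⟩
  · exact ⟨by rw [h1]; exact S_one, h2⟩

/-- Word length in `P`. -/
noncomputable def len (g : P) : ℕ := (Cay S).dist 1 g

theorem len_le_iff {g : P} {k : ℕ} : len g ≤ k ↔ g ∈ Ball gens k := by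
  rw [← coe_S]
  exact dist_le_iff S_one S_sym S_gen

theorem mem_ball_len (g : P) : g ∈ Ball gens (len g) := len_le_iff.1 le_rfl

theorem perp_ball_left {g : P} {k : ℕ} (h : g ∈ Ball gens k) :
    ((g, 1) : P × P) ∈ Ball (Sperp : Set (P × P)) k := by
  induction k generalizing g with
  | zero =>
    have : g = 1 := h
    subst this; rfl
  | succ k ih =>
    obtain ⟨x, hx, y, hy, rfl⟩ := h
    refine ⟨(x, 1), ih hx, (y, 1), mem_Sperp.2 (Or.inl ⟨mem_S.2 hy, rfl⟩), by simp⟩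

theorem perp_ball_right {g : P} {k : ℕ} (h : g ∈ Ball gens k) :
    ((1, g) : P × P) ∈ Ball (Sperp : Set (P × P)) k := by
  induction k generalizing g with
  | zero =>
    have : g = 1 := h
    subst this; rfl
  | succ k ih =>
    obtain ⟨x, hx, y, hy, rfl⟩ := h
    refine ⟨(1, x), ih hx, (1, y), mem_Sperp.2 (Or.inr ⟨rfl, mem_S.2 hy⟩), by simp⟩

theorem perp_upper (x y : P) : (Cay Sperp).dist 1 (x, y) ≤ len x + len y := by
  rw [dist_le_iff Sperp_one Sperp_sym Sperp_gen]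
  have := ball_add (perp_ball_left (mem_ball_len x)) (perp_ball_right (mem_ball_len y))
  simpa using this

theorem perp_lower_aux {k : ℕ} {x : P × P} (h : x ∈ Ball (Sperp : Set (P × P)) k) :
    ∃ k1 k2, k1 + k2 = k ∧ x.1 ∈ Ball gens k1 ∧ x.2 ∈ Ball gens k2 := by
  induction k generalizing x with
  | zero =>
    have : x = 1 := h
    subst this
    exact ⟨0, 0, rfl, rfl, rfl⟩
  | succ k ih =>
    obtain ⟨y, hy, z, hz, rfl⟩ := h
    obtain ⟨k1, k2, hk, h1, h2⟩ := ih hy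
    rcases mem_Sperp.1 (Finset.mem_coe.1 hz) with ⟨h3, h4⟩ | ⟨h3, h4⟩
    · refine ⟨k1 + 1, k2, by omega, ball_succ h1 (mem_S.1 h3), ?_⟩
      rw [Prod.snd_mul, h4, mul_one]; exact h2
    · refine ⟨k1, k2 + 1, by omega, ?_, ball_succ h2 (mem_S.1 h4)⟩
      rw [Prod.fst_mul, h3, mul_one]; exact h1

theorem perp_lower (x y : P) : len x + len y ≤ (Cay Sperp).dist 1 (x, y) := by
  obtain ⟨k1, k2, hk, h1, h2⟩ := perp_lower_aux (mem_ball_dist Sperp_sym Sperp_gen (x, y))
  have h3 := len_le_iff.2 h1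
  have h4 := len_le_iff.2 h2
  simp only at h3 h4
  omega

theorem vee_ball {k : ℕ} {x : P × P} :
    x ∈ Ball (Svee : Set (P × P)) k ↔ x.1 ∈ Ball gens k ∧ x.2 ∈ Ball gens k := by
  induction k generalizing x with
  | zero =>
    change x = 1 ↔ x.1 = 1 ∧ x.2 = 1
    exact Prod.ext_iff
  | succ k ih =>
    constructor
    · rintro ⟨y, hy, z, hz, rfl⟩
      have h1 := ih.1 hy
      have h2 := mem_Svee.1 (Finset.mem_coe.1 hz)
      exact ⟨ball_succ h1.1 (mem_S.1 h2.1), ball_succ h1.2 (mem_S.1 h2.2)⟩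
    · rintro ⟨⟨y1, hy1, z1, hz1, h1⟩, ⟨y2, hy2, z2, hz2, h2⟩⟩
      refine ⟨(y1, y2), ih.2 ⟨hy1, hy2⟩, (z1, z2), mem_Svee.2 ⟨mem_S.2 hz1, mem_S.2 hz2⟩, ?_⟩
      ext
      · exact h1
      · exact h2

theorem vee_le_iff {x : P × P} {k : ℕ} :
    (Cay Svee).dist 1 x ≤ k ↔ len x.1 ≤ k ∧ len x.2 ≤ k := by
  rw [dist_le_iff Svee_one Svee_sym Svee_gen, vee_ball, len_le_iff, len_le_iff]

theorem vee_ge_left (x y : P) : len x ≤ (Cay Svee).dist 1 (x, y) :=
  (vee_le_iff (x := (x, y)).1 le_rfl).1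

theorem vee_ge_right (x y : P) : len y ≤ (Cay Svee).dist 1 (x, y) :=
  (vee_le_iff (x := (x, y)).1 le_rfl).2

/-- The first coordinate of the cursor. -/
theorem len_s_pow (R : ℕ) : R ≤ len (m R 0) := by
  obtain ⟨p, hp0, hstep, hact⟩ := exists_path (mem_ball_len (m R 0))
  have := hact (fun _ _ => 0) (by simp) (by simp) 0
  rw [act_m_apply] at this
  simp only [Prod.mk.injEq] at this
  have h1 : (p (len (m R 0))).1 = R := by omega
  have h2 := (lipschitz (fun i => (p i).1) (fun i hi => (hstep i hi).1)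
    (Nat.zero_le (len (m R 0))) le_rfl).1
  simp only [hp0, h1] at h2
  push_cast at h2
  omega

/-- Bounded retreat depth, as in the statement. -/
def BRD (T : Finset (P × P)) : Prop :=
  ∃ D : ℕ, ∀ g : P × P, ∀ R : ℕ, ∃ h : P × P,
    R ≤ (Cay T).dist 1 h ∧ ∃ p : (Cay T).Walk g h, ∀ v ∈ p.support,
      (Cay T).dist 1 g ≤ (Cay T).dist 1 v + D

theorem vee_bounded : BRD Svee := by
  refine ⟨0, ?_⟩
  rintro ⟨x, y⟩ R
  have hconn := (cay_connected S_sym S_gen).preconnected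
  rcases le_total (len y) (len x) with hle | hle
  · obtain ⟨w⟩ := hconn y (m R 0)
    let φ : Cay S →g Cay Svee :=
      ⟨fun z => (x, z), by
        intro u v huv
        rw [cay_adj_iff S_sym] at huv
        rw [cay_adj_iff Svee_sym]
        refine ⟨by simpa using huv.1, mem_Svee.2 ?_⟩
        simpa using ⟨S_one, huv.2⟩⟩
    refine ⟨(x, m R 0), le_trans (len_s_pow R) (vee_ge_right _ _), w.map φ, ?_⟩
    intro v hv
    rw [SimpleGraph.Walk.support_map, List.mem_map] at hv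
    obtain ⟨z, _, rfl⟩ := hv
    have h1 : (Cay Svee).dist 1 (x, y) ≤ len x := vee_le_iff.2 ⟨le_rfl, hle⟩
    have h2 : len x ≤ (Cay Svee).dist 1 (φ z) := vee_ge_left x z
    omega
  · obtain ⟨w⟩ := hconn x (m R 0)
    let φ : Cay S →g Cay Svee :=
      ⟨fun z => (z, y), by
        intro u v huv
        rw [cay_adj_iff S_sym] at huv
        rw [cay_adj_iff Svee_sym]
        refine ⟨by simpa using huv.1, mem_Svee.2 ?_⟩
        simpa using ⟨huv.2, S_one⟩⟩
    refine ⟨(m R 0, y), le_trans (len_s_pow R) (vee_ge_left _ _), w.map φ, ?_⟩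
    intro v hv
    rw [SimpleGraph.Walk.support_map, List.mem_map] at hv
    obtain ⟨z, _, rfl⟩ := hv
    have h1 : (Cay Svee).dist 1 (x, y) ≤ len y := vee_le_iff.2 ⟨hle, le_rfl⟩
    have h2 : len y ≤ (Cay Svee).dist 1 (φ z) := vee_ge_right z y
    omega

/-- A walk that leaves a set has a last step inside before it first leaves. -/
theorem walk_exit {V : Type} {Γ : SimpleGraph V} {u v : V} (p : Γ.Walk u v) (A : Set V)
    (hu : u ∈ A) (hv : v ∉ A) :
    ∃ x y, x ∈ p.support ∧ Γ.Adj x y ∧ x ∈ A ∧ y ∉ A := by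
  induction p with
  | nil => exact absurd hu hv
  | @cons u w v h p ih =>
    by_cases hw : w ∈ A
    · obtain ⟨x, y, hx, hxy, hxA, hyA⟩ := ih hw hv
      exact ⟨x, y, by simp [hx], hxy, hxA, hyA⟩
    · exact ⟨u, w, by simp, h, hu, hw⟩

theorem exists_max_pocket (n : ℕ) : ∃ g ∈ Pocket n, ∀ x ∈ Pocket n, len x ≤ len g := by
  have hb : ∀ x ∈ Pocket n, len x ≤ 4 * n + 1 + (3 * n + 2 * n) :=
    fun x hx => len_le_iff.2 (pocket_bdd hx)
  by_contra hcon
  push Not at hcon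
  have : ∀ k : ℕ, ∃ g ∈ Pocket n, k ≤ len g := by
    intro k
    induction k with
    | zero => exact ⟨g0 n, g0_mem_pocket n, Nat.zero_le _⟩
    | succ k ih =>
      obtain ⟨g, hg, hk⟩ := ih
      obtain ⟨x, hx, hx2⟩ := hcon g hg
      exact ⟨x, hx, by omega⟩
  obtain ⟨g, hg, hk⟩ := this (4 * n + 1 + (3 * n + 2 * n) + 1)
  have := hb g hg
  omega

theorem perp_unbounded : ¬ BRD Sperp := by
  rintro ⟨D, hD⟩
  obtain ⟨g, hg, hmax⟩ := exists_max_pocket (D + 2)
  obtain ⟨h, hR, p, hp⟩ := hD (g, g) (len g + len g + 1)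
  have hout : h ∉ (Pocket (D + 2) ×ˢ Pocket (D + 2) : Set (P × P)) := by
    rintro ⟨h1, h2⟩
    have h3 := hmax _ h1
    have h4 := hmax _ h2
    have h5 := perp_upper h.1 h.2
    rw [Prod.mk.eta] at h5
    omega
  have hin : (g, g) ∈ (Pocket (D + 2) ×ˢ Pocket (D + 2) : Set (P × P)) := ⟨hg, hg⟩
  obtain ⟨x, y, hx, hxy, hxA, hyA⟩ := walk_exit p _ hin hout
  have h6 := hp x hx
  have h7 := perp_lower g g
  have h8 := perp_upper x.1 x.2
  rw [Prod.mk.eta] at h8
  have h9 : 5 * (D + 2) ≤ len g := by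
    have h10 := hmax _ (g0_mem_pocket (D + 2))
    have h11 := lower_bound (n := D + 2) (by omega) (mem_ball_len (g0 (D + 2)))
    omega
  rw [cay_adj_iff Sperp_sym] at hxy
  have h12 : len x.1 ≤ 4 * (D + 2) + 1 ∨ len x.2 ≤ 4 * (D + 2) + 1 := by
    rcases mem_Sperp.1 hxy.2 with ⟨e1, e2⟩ | ⟨e1, e2⟩
    · left
      refine len_le_iff.2 (pocket_exit hxA.1 (mem_S.1 e1) ?_)
      intro hmem
      apply hyA
      refine ⟨?_, ?_⟩
      · have : x.1 * (x⁻¹ * y).1 = y.1 := by simp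
        rwa [this] at hmem
      · have : x.2 = y.2 := by
          rw [Prod.snd_mul, Prod.snd_inv, inv_mul_eq_one] at e2
          exact e2
        rw [← this]; exact hxA.2
    · right
      refine len_le_iff.2 (pocket_exit hxA.2 (mem_S.1 e2) ?_)
      intro hmem
      apply hyA
      refine ⟨?_, ?_⟩
      · have : x.1 = y.1 := by
          rw [Prod.fst_mul, Prod.fst_inv, inv_mul_eq_one] at e1
          exact e1
        rw [← this]; exact hxA.1
      · have : x.2 * (x⁻¹ * y).2 = y.2 := by simp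
        rwa [this] at hmem
  have h13 := hmax _ hxA.1
  have h14 := hmax _ hxA.2
  rcases h12 with h | h <;> omega

theorem fp_PP : ∃ n : ℕ, ∃ f : FreeGroup (Fin n) →* (P × P), Function.Surjective f ∧
        ∃ r : Finset (FreeGroup (Fin n)),
          f.ker = Subgroup.normalClosure (r : Set (FreeGroup (Fin n))) :=
  fp_explicit (fp_prod gens_finite gens_finite closure_gens closure_gens)

end Pool.Agent.Helper376.DL
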