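import Mathlib

namespace Helper376Split

open Matrix Finset

set_option linter.unusedSectionVars false

variable {S T : Type*} [Fintype S] [Fintype T] [DecidableEq S] [DecidableEq T]

/-- The Laplacian of the weighted split graph on `S ⊕ T` (clique on `S`, independent set `T`,
cross weights `B`), as an operator on functions. -/
def lap (B : S → T → ℝ) (x : S ⊕ T → ℝ) : S ⊕ T → ℝ
  | Sum.inl u => ∑ u', (x (Sum.inl u) - x (Sum.inl u')) +
      ∑ v, B u v * (x (Sum.inl u) - x (Sum.inr v))
  | Sum.inr v => ∑ u, B u v * (x (Sum.inr v) - x (Sum.inl u))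

theorem sum_det_updateRow (A : Matrix S S ℝ) (a : S → ℝ) :
    ∑ u, (A.updateRow u (fun j => a j * A u j)).det = (∑ j, a j) * A.det := by
  have h : ∀ u, (A.updateRow u (fun j => a j * A u j)).det
      = ∑ j, a j * (A.adjugate j u * A u j) := by
    intro u
    rw [← cramer_transpose_apply, cramer_eq_adjugate_mulVec]
    simp only [Matrix.mulVec, dotProduct]
    refine Finset.sum_congr rfl fun j _ => ?_
    rw [← adjugate_transpose, transpose_apply]
    ring
  simp_rw [h]
  rw [Finset.sum_comm, Finset.sum_mul]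
  refine Finset.sum_congr rfl fun j _ => ?_
  rw [← Finset.mul_sum]
  congr 1
  have := congrFun (congrFun (adjugate_mul A) j) j
  rw [Matrix.mul_apply] at this
  rw [this]
  simp

/-- difference matrix -/
def R (v : S → (S ⊕ T → ℝ)) (φ : S → T) : Matrix S S ℝ :=
  Matrix.of fun u j => v j (Sum.inl u) - v j (Sum.inr (φ u))

/-- cofactor function -/
def cof (A : Matrix S S ℝ) (u : S) : S → ℝ := fun j => A.adjugate j u

theorem det_updateRow_cof (A : Matrix S S ℝ) (u : S) (b : S → ℝ) :
    (A.updateRow u b).det = ∑ j, b j * cof A u j := by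
  rw [← cramer_transpose_apply, cramer_eq_adjugate_mulVec]
  simp only [Matrix.mulVec, dotProduct, cof]
  refine Finset.sum_congr rfl fun j _ => ?_
  rw [← adjugate_transpose, transpose_apply]
  ring

/-- combination of the `v j` with the cofactors -/
def hh {I : Type*} [Fintype I] (v : I → (S ⊕ T → ℝ)) (c : I → ℝ) : S ⊕ T → ℝ :=
  fun p => ∑ j, v j p * c j

theorem R_update (v : S → (S ⊕ T → ℝ)) (φ : S → T) (u : S) (w : T) :
    R v (Function.update φ u w) =
      (R v φ).updateRow u (fun j => v j (Sum.inl u) - v j (Sum.inr w)) := by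
  ext u' j
  by_cases h : u' = u
  · subst h
    simp [R]
  · simp [R, Matrix.updateRow_ne h, Function.update_of_ne h]

theorem lap_hh {I : Type*} [Fintype I] (B : S → T → ℝ) (v : I → (S ⊕ T → ℝ)) (c : I → ℝ)
    (p : S ⊕ T) :
    lap B (hh v c) p = ∑ j, lap B (v j) p * c j := by
  cases p with
  | inl u =>
    simp only [lap, hh, ← Finset.sum_sub_distrib, ← sub_mul, Finset.mul_sum, add_mul,
      Finset.sum_mul, Finset.sum_add_distrib]
    congr 1
    · rw [Finset.sum_comm]
    · rw [Finset.sum_comm]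
      refine Finset.sum_congr rfl fun j _ => Finset.sum_congr rfl fun i _ => by ring
  | inr w =>
    simp only [lap, hh, ← Finset.sum_sub_distrib, ← sub_mul, Finset.mul_sum,
      Finset.sum_mul]
    rw [Finset.sum_comm]
    refine Finset.sum_congr rfl fun j _ => Finset.sum_congr rfl fun i _ => by ring

theorem lap_diff_bound (B : S → T → ℝ) (hB0 : ∀ u v, 0 ≤ B u v) (hB1 : ∀ u v, B u v ≤ 1)
    (h : S ⊕ T → ℝ) (φ : S → T) (u : S) (M : ℝ)
    (hM : ∀ w, |h (Sum.inl u) - h (Sum.inr w)| ≤ M)
    (h0 : ∀ u', u' ≠ u → h (Sum.inl u') - h (Sum.inr (φ u')) = 0) (w : T) :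
    |lap B h (Sum.inl u) - lap B h (Sum.inr w)| ≤ ((Fintype.card S : ℝ) + ∑ v, B u v) * M := by
  have hM0 : 0 ≤ M := (abs_nonneg _).trans (hM w)
  have e : lap B h (Sum.inl u) - lap B h (Sum.inr w) =
      ∑ u', ((h (Sum.inl u) - h (Sum.inl u')) + B u' w * (h (Sum.inl u') - h (Sum.inr w))) +
        ∑ v, B u v * (h (Sum.inl u) - h (Sum.inr v)) := by
    simp only [lap, Finset.sum_add_distrib]
    have : ∑ u', B u' w * (h (Sum.inr w) - h (Sum.inl u')) =
        - ∑ u', B u' w * (h (Sum.inl u') - h (Sum.inr w)) := by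
      rw [← Finset.sum_neg_distrib]
      exact Finset.sum_congr rfl fun i _ => by ring
    rw [this]
    ring
  have h1 : ∀ u', |(h (Sum.inl u) - h (Sum.inl u')) + B u' w * (h (Sum.inl u') - h (Sum.inr w))|
      ≤ M := by
    intro u'
    by_cases hu : u' = u
    · subst hu
      rw [sub_self, zero_add, abs_mul, abs_of_nonneg (hB0 _ _)]
      calc B u' w * |h (Sum.inl u') - h (Sum.inr w)| ≤ 1 * M :=
            mul_le_mul (hB1 _ _) (hM w) (abs_nonneg _) zero_le_one
        _ = M := one_mul _
    · have h2 : h (Sum.inl u') = h (Sum.inr (φ u')) := sub_eq_zero.mp (h0 u' hu)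
      have h3 : (h (Sum.inl u) - h (Sum.inl u')) + B u' w * (h (Sum.inl u') - h (Sum.inr w)) =
          B u' w * (h (Sum.inl u) - h (Sum.inr w)) +
            (1 - B u' w) * (h (Sum.inl u) - h (Sum.inr (φ u'))) := by
        rw [h2]; ring
      rw [h3]
      refine (abs_add_le _ _).trans ?_
      rw [abs_mul, abs_mul, abs_of_nonneg (hB0 _ _), abs_of_nonneg (sub_nonneg.mpr (hB1 _ _))]
      have a1 := mul_le_mul_of_nonneg_left (hM w) (hB0 u' w)
      have a2 := mul_le_mul_of_nonneg_left (hM (φ u')) (sub_nonneg.mpr (hB1 u' w))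
      linarith
  rw [e]
  refine (abs_add_le _ _).trans ?_
  rw [add_mul]
  refine add_le_add ?_ ?_
  · refine (Finset.abs_sum_le_sum_abs _ _).trans ?_
    refine (Finset.sum_le_sum fun i _ => h1 i).trans ?_
    simp
  · refine (Finset.abs_sum_le_sum_abs _ _).trans ?_
    rw [Finset.sum_mul]
    refine Finset.sum_le_sum fun i _ => ?_
    rw [abs_mul, abs_of_nonneg (hB0 _ _)]
    exact mul_le_mul_of_nonneg_left (hM i) (hB0 _ _)

theorem det_lap_row (B : S → T → ℝ) (hB0 : ∀ u v, 0 ≤ B u v) (hB1 : ∀ u v, B u v ≤ 1)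
    (v : S → (S ⊕ T → ℝ)) (a : S → ℝ) (heig : ∀ j p, lap B (v j) p = a j * v j p)
    (φ : S → T) (M : ℝ) (hM : ∀ ψ, |(R v ψ).det| ≤ M) (u : S) :
    |((R v φ).updateRow u (fun j => a j * R v φ u j)).det| ≤
      ((Fintype.card S : ℝ) + ∑ v, B u v) * M := by
  set c := cof (R v φ) u with hc
  have e1 : ∀ w, hh v c (Sum.inl u) - hh v c (Sum.inr w) = (R v (Function.update φ u w)).det := by
    intro w
    rw [R_update, det_updateRow_cof]
    simp only [hh, ← Finset.sum_sub_distrib]
    exact Finset.sum_congr rfl fun j _ => by rw [← hc]; ring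
  have e2 : ∀ u', u' ≠ u → hh v c (Sum.inl u') - hh v c (Sum.inr (φ u')) = 0 := by
    intro u' hu
    have : ((R v φ).updateRow u (fun j => v j (Sum.inl u') - v j (Sum.inr (φ u')))).det = 0 := by
      apply Matrix.det_zero_of_row_eq hu
      ext j
      rw [Matrix.updateRow_self, Matrix.updateRow_ne hu]
      simp [R]
    rw [det_updateRow_cof] at this
    rw [← this]
    simp only [hh, ← Finset.sum_sub_distrib]
    exact Finset.sum_congr rfl fun j _ => by rw [← hc]; ring
  have e3 : ((R v φ).updateRow u (fun j => a j * R v φ u j)).det =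
      lap B (hh v c) (Sum.inl u) - lap B (hh v c) (Sum.inr (φ u)) := by
    rw [det_updateRow_cof, lap_hh, lap_hh, ← Finset.sum_sub_distrib]
    refine Finset.sum_congr rfl fun j _ => ?_
    rw [heig, heig, ← hc]
    simp only [R, Matrix.of_apply]
    ring
  rw [e3]
  exact lap_diff_bound B hB0 hB1 _ φ u M (fun w => by rw [e1]; exact hM _) e2 _

theorem exists_det_ne [Nonempty T] (v : S → (S ⊕ T → ℝ)) (hli : LinearIndependent ℝ v)
    (hsum : ∀ j, ∑ p, v j p = 0) : ∃ φ : S → T, (R v φ).det ≠ 0 := by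
  classical
  by_contra hcon
  push Not at hcon
  let W : (S → T) → Submodule ℝ (S → ℝ) := fun φ =>
    Submodule.span ℝ (Set.range fun u => (R v φ) u)
  obtain ⟨φ, hφ⟩ := Finite.exists_max (fun φ : S → T => Module.finrank ℝ (W φ))
  obtain ⟨c, hc0, hc⟩ := (Matrix.exists_mulVec_eq_zero_iff (M := R v φ)).mpr (hcon φ)
  obtain ⟨d, hd0, hd⟩ := (Matrix.exists_vecMul_eq_zero_iff (M := R v φ)).mpr (hcon φ)
  obtain ⟨u0, hu0⟩ := Function.ne_iff.mp hd0
  simp only [Pi.zero_apply] at hu0
  -- all elements of `W φ` are killed by `c`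
  have hker : ∀ r ∈ W φ, ∑ j, r j * c j = 0 := by
    intro r hr
    refine Submodule.span_induction (p := fun r _ => ∑ j, r j * c j = 0) ?_ ?_ ?_ ?_ hr
    · rintro _ ⟨u, rfl⟩
      exact congrFun hc u
    · simp
    · intro x y _ _ hx hy
      simp only [Pi.add_apply, add_mul, Finset.sum_add_distrib, hx, hy, add_zero]
    · intro t x _ hx
      simp only [Pi.smul_apply, smul_eq_mul, mul_assoc, ← Finset.mul_sum, hx, mul_zero]
  have hrow : ∀ w : T, (fun j => v j (Sum.inl u0) - v j (Sum.inr w)) ∈ W φ := by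
    intro w
    let φ' := Function.update φ u0 w
    have hsub : ∀ u, u ≠ u0 → (R v φ) u ∈ W φ' := by
      intro u hu
      refine Submodule.subset_span ⟨u, ?_⟩
      simp only [φ']
      ext j
      simp [R, Function.update_of_ne hu]
    have hu0mem : (R v φ) u0 ∈ W φ' := by
      have h1 : ∑ u, d u • (R v φ) u = 0 := by
        ext j
        have := congrFun hd j
        simpa [Matrix.vecMul, dotProduct] using this
      have h2 : d u0 • (R v φ) u0 = - ∑ u ∈ Finset.univ.erase u0, d u • (R v φ) u := by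
        rw [eq_neg_iff_add_eq_zero]
        exact (Finset.add_sum_erase _ (fun u => d u • (R v φ) u) (Finset.mem_univ u0)).trans h1
      have h3 : (R v φ) u0 = (d u0)⁻¹ • (d u0 • (R v φ) u0) := by
        rw [smul_smul, inv_mul_cancel₀ hu0, one_smul]
      rw [h3, h2]
      refine Submodule.smul_mem _ _ (Submodule.neg_mem _ (Submodule.sum_mem _ fun u hu => ?_))
      exact Submodule.smul_mem _ _ (hsub u (Finset.ne_of_mem_erase hu))
    have hle : W φ ≤ W φ' := by
      refine Submodule.span_le.mpr ?_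
      rintro _ ⟨u, rfl⟩
      by_cases hu : u = u0
      · subst hu; exact hu0mem
      · exact hsub u hu
    have heq : W φ = W φ' := Submodule.eq_of_le_of_finrank_le hle (hφ φ')
    rw [heq]
    refine Submodule.subset_span ⟨u0, ?_⟩
    ext j
    simp [R, φ']
  -- the combination is constant
  have g1 : ∀ w, hh v c (Sum.inl u0) = hh v c (Sum.inr w) := by
    intro w
    have := hker _ (hrow w)
    rw [← sub_eq_zero, ← this]
    simp only [hh, ← Finset.sum_sub_distrib]
    exact Finset.sum_congr rfl fun j _ => by ring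
  have g2 : ∀ u, hh v c (Sum.inl u) = hh v c (Sum.inr (φ u)) := by
    intro u
    have := hker _ (Submodule.subset_span ⟨u, rfl⟩ : (R v φ) u ∈ W φ)
    rw [← sub_eq_zero, ← this]
    simp only [hh, ← Finset.sum_sub_distrib]
    exact Finset.sum_congr rfl fun j _ => by simp only [R, Matrix.of_apply]; ring
  have g3 : ∀ p, hh v c p = hh v c (Sum.inl u0) := by
    intro p
    cases p with
    | inl u => rw [g2 u, ← g1]
    | inr w => rw [← g1]
  have g4 : ∑ p, hh v c p = 0 := by
    simp only [hh]
    rw [Finset.sum_comm]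
    simp only [← Finset.sum_mul, hsum, zero_mul, Finset.sum_const_zero]
  have g5 : hh v c (Sum.inl u0) = 0 := by
    simp only [g3, Finset.sum_const, Finset.card_univ, nsmul_eq_mul] at g4
    rcases mul_eq_zero.mp g4 with h | h
    · exfalso
      have : 0 < Fintype.card (S ⊕ T) := Fintype.card_pos
      exact this.ne' (by exact_mod_cast h)
    · exact h
  have g6 : ∑ j, c j • v j = 0 := by
    ext p
    have := (g3 p).trans g5
    simp only [hh] at this
    rw [Finset.sum_apply]
    simp only [Pi.smul_apply, smul_eq_mul, Pi.zero_apply]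
    rw [← this]
    exact Finset.sum_congr rfl fun j _ => by ring
  apply hc0
  ext j
  exact (Fintype.linearIndependent_iff.mp hli) c g6 j

/-- **Lemma (a)**: `card S` independent eigenvectors orthogonal to `1`. -/
theorem sum_eig_le (B : S → T → ℝ) (hB0 : ∀ u v, 0 ≤ B u v) (hB1 : ∀ u v, B u v ≤ 1)
    (v : S → (S ⊕ T → ℝ)) (a : S → ℝ) (heig : ∀ j p, lap B (v j) p = a j * v j p)
    (hli : LinearIndependent ℝ v) (hsum : ∀ j, ∑ p, v j p = 0) :
    ∑ j, a j ≤ (Fintype.card S : ℝ) ^ 2 + ∑ u, ∑ w, B u w := by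
  classical
  rcases isEmpty_or_nonempty S with hS | hS
  · simp
  rcases isEmpty_or_nonempty T with hT | hT
  · exfalso
    let V : Matrix S S ℝ := Matrix.of fun u j => v j (Sum.inl u)
    have h1 : (fun _ : S => (1 : ℝ)) ᵥ* V = 0 := by
      ext j
      have := hsum j
      simpa [Matrix.vecMul, dotProduct, V] using this
    have h2 : V.det = 0 := by
      refine (Matrix.exists_vecMul_eq_zero_iff (M := V)).mp ⟨fun _ => 1, ?_, h1⟩
      intro h
      have := congrFun h (Classical.arbitrary S)
      simp at this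
    obtain ⟨c, hc0, hc⟩ := (Matrix.exists_mulVec_eq_zero_iff (M := V)).mpr h2
    apply hc0
    ext j
    refine (Fintype.linearIndependent_iff.mp hli) c ?_ j
    ext p
    cases p with
    | inl u =>
      have := congrFun hc u
      simp only [Matrix.mulVec, dotProduct, V, Matrix.of_apply, Pi.zero_apply] at this
      rw [Finset.sum_apply]
      simp only [Pi.smul_apply, smul_eq_mul, Pi.zero_apply]
      rw [← this]
      exact Finset.sum_congr rfl fun j _ => by ring
    | inr w => exact (hT.false w).elim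
  · obtain ⟨φ0, hφ0⟩ := exists_det_ne v hli hsum
    obtain ⟨φ, hφ⟩ := Finite.exists_max (fun φ : S → T => |(R v φ).det|)
    have hpos : 0 < |(R v φ).det| := lt_of_lt_of_le (abs_pos.mpr hφ0) (hφ φ0)
    have h1 := sum_det_updateRow (R v φ) a
    have h2 : |(∑ j, a j) * (R v φ).det| ≤
        ∑ u, (((Fintype.card S : ℝ) + ∑ v, B u v) * |(R v φ).det|) := by
      rw [← h1]
      refine (Finset.abs_sum_le_sum_abs _ _).trans (Finset.sum_le_sum fun u _ => ?_)
      exact det_lap_row B hB0 hB1 v a heig φ _ hφ u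
    rw [← Finset.sum_mul, abs_mul, Finset.sum_add_distrib] at h2
    have h3 := le_of_mul_le_mul_right h2 hpos
    refine (le_abs_self _).trans (h3.trans (le_of_eq ?_))
    simp
    ring


theorem quad_le_of_zero (B : S → T → ℝ) (hB1 : ∀ u v, B u v ≤ 1) (x : S ⊕ T → ℝ)
    (hx : ∀ u, x (Sum.inl u) = 0) :
    ∑ p, x p * lap B x p ≤ (Fintype.card S : ℝ) * ∑ p, x p * x p := by
  rw [Fintype.sum_sum_type, Fintype.sum_sum_type]
  simp only [hx, zero_mul, Finset.sum_const_zero, zero_add, lap, sub_zero]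
  rw [Finset.mul_sum]
  refine Finset.sum_le_sum fun v _ => ?_
  rw [← Finset.sum_mul]
  have h1 : ∑ u, B u v ≤ (Fintype.card S : ℝ) := by
    refine (Finset.sum_le_sum fun u _ => hB1 u v).trans ?_
    simp
  nlinarith [mul_le_mul_of_nonneg_right h1 (mul_self_nonneg (x (Sum.inr v)))]

theorem quad_nonneg (B : S → T → ℝ) (hB0 : ∀ u v, 0 ≤ B u v) (x : S ⊕ T → ℝ) :
    0 ≤ ∑ p, x p * lap B x p := by
  rw [Fintype.sum_sum_type]
  simp only [lap, mul_add, Finset.sum_add_distrib, Finset.mul_sum]
  have h1 : ∑ u, ∑ u', x (Sum.inl u) * (x (Sum.inl u) - x (Sum.inl u')) =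
      (1/2) * ∑ u, ∑ u', (x (Sum.inl u) - x (Sum.inl u')) ^ 2 := by
    have h2 : ∑ u, ∑ u', x (Sum.inl u) * (x (Sum.inl u) - x (Sum.inl u')) =
        ∑ u : S, ∑ u' : S, x (Sum.inl u') * (x (Sum.inl u') - x (Sum.inl u)) := by
      rw [Finset.sum_comm]
    have h3 : (∑ u, ∑ u', x (Sum.inl u) * (x (Sum.inl u) - x (Sum.inl u'))) +
        ∑ u : S, ∑ u' : S, x (Sum.inl u') * (x (Sum.inl u') - x (Sum.inl u)) =
        ∑ u, ∑ u', (x (Sum.inl u) - x (Sum.inl u')) ^ 2 := by
      rw [← Finset.sum_add_distrib]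
      refine Finset.sum_congr rfl fun u _ => ?_
      rw [← Finset.sum_add_distrib]
      exact Finset.sum_congr rfl fun u' _ => by ring
    linarith
  have h4 : ∑ u, ∑ v, x (Sum.inl u) * (B u v * (x (Sum.inl u) - x (Sum.inr v))) +
      ∑ v, ∑ u, x (Sum.inr v) * (B u v * (x (Sum.inr v) - x (Sum.inl u))) =
      ∑ u, ∑ v, B u v * (x (Sum.inl u) - x (Sum.inr v)) ^ 2 := by
    rw [Finset.sum_comm (s := (Finset.univ : Finset T)), ← Finset.sum_add_distrib]
    refine Finset.sum_congr rfl fun u _ => ?_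
    rw [← Finset.sum_add_distrib]
    exact Finset.sum_congr rfl fun u' _ => by ring
  have h5 : 0 ≤ ∑ u : S, ∑ u' : S, (x (Sum.inl u) - x (Sum.inl u')) ^ 2 :=
    Finset.sum_nonneg fun _ _ => Finset.sum_nonneg fun _ _ => sq_nonneg _
  have h6 : 0 ≤ ∑ u, ∑ v, B u v * (x (Sum.inl u) - x (Sum.inr v)) ^ 2 :=
    Finset.sum_nonneg fun _ _ => Finset.sum_nonneg fun _ _ => mul_nonneg (hB0 _ _) (sq_nonneg _)
  rw [h1]
  linarith

theorem orth_expand {I : Type*} [Fintype I] [DecidableEq I] (w : I → (S ⊕ T → ℝ))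
    (ho : ∀ i j, ∑ p, w i p * w j p = if i = j then 1 else 0) (c d : I → ℝ) :
    ∑ p, (∑ i, w i p * c i) * (∑ j, w j p * d j) = ∑ i, c i * d i := by
  simp only [Finset.sum_mul_sum]
  rw [Finset.sum_comm]
  refine Finset.sum_congr rfl fun i _ => ?_
  rw [Finset.sum_comm]
  have : ∀ j, ∑ p, w i p * c i * (w j p * d j) = c i * d j * (if i = j then 1 else 0) := by
    intro j
    rw [← ho i j, Finset.mul_sum]
    exact Finset.sum_congr rfl fun p _ => by ring
  simp only [this]
  simp

theorem card_le {I : Type*} [Fintype I] [DecidableEq I] (B : S → T → ℝ)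
    (hB1 : ∀ u v, B u v ≤ 1) (w : I → (S ⊕ T → ℝ))
    (ho : ∀ i j, ∑ p, w i p * w j p = if i = j then 1 else 0) (b : I → ℝ)
    (heig : ∀ i p, lap B (w i) p = b i * w i p) (hb : ∀ i, (Fintype.card S : ℝ) < b i) :
    Fintype.card I ≤ Fintype.card S := by
  let Φ : (I → ℝ) →ₗ[ℝ] (S → ℝ) :=
    { toFun := fun c u => ∑ i, w i (Sum.inl u) * c i
      map_add' := by
        intro x y; ext u
        simp only [Pi.add_apply, mul_add, Finset.sum_add_distrib]
      map_smul' := by
        intro t x; ext u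
        simp only [Pi.smul_apply, smul_eq_mul, RingHom.id_apply, Finset.mul_sum]
        exact Finset.sum_congr rfl fun i _ => by ring }
  have hinj : Function.Injective Φ := by
    rw [← LinearMap.ker_eq_bot, LinearMap.ker_eq_bot']
    intro c hc
    have hx : ∀ u, hh w c (Sum.inl u) = 0 := fun u => congrFun hc u
    have h1 := quad_le_of_zero B hB1 (hh w c) hx
    have h2 : ∑ p, hh w c p * lap B (hh w c) p = ∑ i, b i * (c i * c i) := by
      have : ∀ p, lap B (hh w c) p = ∑ j, w j p * (b j * c j) := by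
        intro p
        rw [lap_hh]
        exact Finset.sum_congr rfl fun j _ => by rw [heig]; ring
      simp only [this, hh]
      rw [orth_expand w ho]
      exact Finset.sum_congr rfl fun j _ => by ring
    have h3 : ∑ p, hh w c p * hh w c p = ∑ i, c i * c i := orth_expand w ho c c
    rw [h2, h3, Finset.mul_sum, ← sub_nonpos, ← Finset.sum_sub_distrib] at h1
    have h4 : ∀ i ∈ Finset.univ, 0 ≤ b i * (c i * c i) - (Fintype.card S : ℝ) * (c i * c i) := by
      intro i _
      rw [← sub_mul]
      exact mul_nonneg (sub_nonneg.mpr (hb i).le) (mul_self_nonneg _)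
    have h5 := (Finset.sum_eq_zero_iff_of_nonneg h4).mp
      (le_antisymm h1 (Finset.sum_nonneg h4))
    ext i
    have h6 := h5 i (Finset.mem_univ i)
    rw [← sub_mul] at h6
    rcases mul_eq_zero.mp h6 with h | h
    · exact absurd h (sub_pos.mpr (hb i)).ne'
    · simpa using h
  have := LinearMap.finrank_le_finrank_of_injective hinj
  simpa using this

/-- complementary weights -/
def Bc (B : S → T → ℝ) : T → S → ℝ := fun t s => 1 - B s t

theorem lap_compl (B : S → T → ℝ) (x : S ⊕ T → ℝ) (hx : ∑ p, x p = 0) (p : T ⊕ S) :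
    lap (Bc B) (fun q => x q.swap) p =
      ((Fintype.card S : ℝ) + Fintype.card T) * x p.swap - lap B x p.swap := by
  rw [Fintype.sum_sum_type] at hx
  cases p with
  | inl t =>
    simp only [lap, Bc, Sum.swap_inl, Sum.swap_inr, Finset.sum_sub_distrib, Finset.sum_const,
      Finset.card_univ, nsmul_eq_mul, sub_mul, one_mul]
    linarith
  | inr t =>
    simp only [lap, Bc, Sum.swap_inl, Sum.swap_inr, Finset.sum_sub_distrib, Finset.sum_const,
      Finset.card_univ, nsmul_eq_mul, sub_mul, one_mul]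
    linarith

theorem linIndep_of_orth {I : Type*} [Fintype I] [DecidableEq I] {N : Type*} [Fintype N]
    (w : I → (N → ℝ)) (ho : ∀ i j, ∑ p, w i p * w j p = if i = j then 1 else 0) :
    LinearIndependent ℝ w := by
  rw [Fintype.linearIndependent_iff]
  intro g hg i
  have h1 : ∑ p, (∑ j, g j • w j) p * w i p = 0 := by
    rw [hg]; simp
  simp only [Finset.sum_apply, Pi.smul_apply, smul_eq_mul, Finset.sum_mul] at h1
  rw [Finset.sum_comm] at h1
  have h2 : ∀ j, ∑ p, g j * w j p * w i p = g j * (if j = i then 1 else 0) := by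
    intro j
    rw [← ho j i, Finset.mul_sum]
    exact Finset.sum_congr rfl fun p _ => by ring
  simp only [h2] at h1
  simpa using h1

theorem top_sum {K : Type*} [Fintype K] [DecidableEq K] (B : S → T → ℝ)
    (hB0 : ∀ u v, 0 ≤ B u v) (hB1 : ∀ u v, B u v ≤ 1) (w : K → (S ⊕ T → ℝ))
    (ho : ∀ i j, ∑ p, w i p * w j p = if i = j then 1 else 0) (μ : K → ℝ)
    (heig : ∀ i p, lap B (w i) p = μ i * w i p) (hsum : ∀ i, ∑ p, w i p = 0)
    (J : Finset K) (hJ : J.card = Fintype.card S) :
    ∑ i ∈ J, μ i ≤ (Fintype.card S : ℝ) ^ 2 + ∑ u, ∑ v, B u v := by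
  have e : S ≃ J := Fintype.equivOfCardEq (by rw [Fintype.card_coe, hJ])
  have h := sum_eig_le B hB0 hB1 (fun s => w (e s)) (fun s => μ (e s))
    (fun s p => heig _ p)
    (linIndep_of_orth _ (by
      intro i j
      rw [ho]
      by_cases hij : i = j
      · subst hij; simp
      · have : (e i : K) ≠ (e j : K) := fun h => hij (e.injective (Subtype.ext h))
        simp [hij, this]))
    (fun s => hsum _)
  rw [← Finset.sum_coe_sort J μ]
  rw [e.sum_comp (fun i : J => μ i)] at h
  exact h

theorem pos_part_le {K : Type*} [Fintype K] [DecidableEq K] (B : S → T → ℝ)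
    (hB0 : ∀ u v, 0 ≤ B u v) (hB1 : ∀ u v, B u v ≤ 1)
    (hK : Fintype.card K + 1 = Fintype.card S + Fintype.card T) (w : K → (S ⊕ T → ℝ))
    (ho : ∀ i j, ∑ p, w i p * w j p = if i = j then 1 else 0) (μ : K → ℝ)
    (heig : ∀ i p, lap B (w i) p = μ i * w i p) (hsum : ∀ i, ∑ p, w i p = 0)
    (htr : ∑ i, μ i = (Fintype.card S : ℝ) * (Fintype.card S - 1) + 2 * ∑ u, ∑ v, B u v) :
    ∑ i, max (μ i - (Fintype.card S : ℝ)) 0 ≤ ∑ u, ∑ v, B u v := by
  classical
  set s : ℝ := (Fintype.card S : ℝ) with hs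
  set t : ℝ := (Fintype.card T : ℝ) with ht
  set I : Finset K := Finset.univ.filter (fun i => s < μ i) with hI
  have hIc : I.card ≤ Fintype.card S := by
    have := card_le (I := I) B hB1 (fun i => w i) (by
      intro i j
      rw [ho]
      by_cases hij : i = j
      · subst hij; simp
      · have : (i : K) ≠ (j : K) := fun h => hij (Subtype.ext h)
        simp [hij, this]) (fun i => μ i) (fun i p => heig _ p) (by
      intro i
      have := i.2
      simp only [hI, Finset.mem_filter] at this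
      exact this.2)
    rwa [Fintype.card_coe] at this
  rcases hIc.eq_or_lt with hcase | hcase
  · have h1 := top_sum B hB0 hB1 w ho μ heig hsum I hcase
    have h2 : ∑ i, max (μ i - s) 0 = ∑ i ∈ I, (μ i - s) := by
      rw [hI, Finset.sum_filter]
      refine Finset.sum_congr rfl fun i _ => ?_
      split_ifs with h
      · exact max_eq_left (sub_nonneg.mpr h.le)
      · exact max_eq_right (sub_nonpos.mpr (not_lt.mp h))
    rw [h2, Finset.sum_sub_distrib, Finset.sum_const, hcase, nsmul_eq_mul]
    nlinarith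
  · have hoc : ∀ i j, ∑ p : T ⊕ S, w i p.swap * w j p.swap = if i = j then 1 else 0 := by
      intro i j
      rw [← ho i j]
      exact (Equiv.sumComm T S).sum_comp (fun p => w i p * w j p)
    have hec : ∀ i p, lap (Bc B) (fun q => w i q.swap) p = (s + t - μ i) * w i p.swap := by
      intro i p
      rw [lap_compl B (w i) (hsum i), heig]
      ring
    have hsc : ∀ i, ∑ p : T ⊕ S, w i p.swap = 0 := by
      intro i
      rw [← hsum i]
      exact (Equiv.sumComm T S).sum_comp (fun p => w i p)
    have hc0 : ∀ u v, 0 ≤ Bc B u v := fun u v => sub_nonneg.mpr (hB1 v u)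
    have hc1 : ∀ u v, Bc B u v ≤ 1 := fun u v => sub_le_self _ (hB0 v u)
    set Jm : Finset K := Finset.univ.filter (fun i => μ i < s) with hJm
    set J1 : Finset K := Finset.univ.filter (fun i => ¬ (s < μ i)) with hJ1
    have hJmc : Jm.card ≤ Fintype.card T := by
      have := card_le (I := Jm) (Bc B) hc1 (fun i q => w i q.swap) (by
        intro i j
        rw [hoc]
        by_cases hij : i = j
        · subst hij; simp
        · have : (i : K) ≠ (j : K) := fun h => hij (Subtype.ext h)
          simp [hij, this]) (fun i => s + t - μ i) (fun i p => hec _ p) (by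
        intro i
        have := i.2
        simp only [hJm, Finset.mem_filter] at this
        have := this.2
        linarith)
      rwa [Fintype.card_coe] at this
    have hJ1c : Fintype.card T ≤ J1.card := by
      have h1 : I.card + J1.card = Fintype.card K := by
        rw [hI, hJ1, Finset.card_filter_add_card_filter_not, Finset.card_univ]
      omega
    have hsub : Jm ⊆ J1 := by
      intro i hi
      simp only [hJm, hJ1, Finset.mem_filter] at hi ⊢
      exact ⟨hi.1, hi.2.le.not_gt⟩
    obtain ⟨J', hJJ, hJJ', hJ'c⟩ := Finset.exists_subsuperset_card_eq hsub hJmc hJ1c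
    have h1 := top_sum (Bc B) hc0 hc1 (fun i q => w i q.swap) hoc (fun i => s + t - μ i) hec hsc
      J' hJ'c
    have h2 : ∑ i, max (μ i - s) 0 = ∑ i, (μ i - s) + ∑ i ∈ J', (s - μ i) := by
      have h3 : ∑ i ∈ J', (s - μ i) = ∑ i, max (s - μ i) 0 := by
        rw [← Finset.sum_subset (Finset.subset_univ J')]
        · refine Finset.sum_congr rfl fun i hi => ?_
          have := hJJ' hi
          simp only [hJ1, Finset.mem_filter, not_lt] at this
          rw [max_eq_left (sub_nonneg.mpr this.2)]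
        · intro i _ hi
          have : i ∉ Jm := fun h => hi (hJJ h)
          simp only [hJm, Finset.mem_filter, not_and, not_lt] at this
          exact max_eq_right (sub_nonpos.mpr (this (Finset.mem_univ _)))
      rw [h3, ← Finset.sum_add_distrib]
      refine Finset.sum_congr rfl fun i _ => ?_
      rcases le_total (μ i) s with h | h
      · rw [max_eq_right (sub_nonpos.mpr h), max_eq_left (sub_nonneg.mpr h)]; ring
      · rw [max_eq_left (sub_nonneg.mpr h), max_eq_right (sub_nonpos.mpr h)]; ring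
    have h4 : ∑ i ∈ J', (s + t - μ i) = ∑ i ∈ J', (s - μ i) + t * t := by
      have : ∀ i, s + t - μ i = (s - μ i) + t := fun i => by ring
      simp only [this]
      rw [Finset.sum_add_distrib, Finset.sum_const, hJ'c, nsmul_eq_mul]
    have h5 : ∑ u, ∑ v, Bc B u v = t * s - ∑ u, ∑ v, B u v := by
      simp only [Bc, Finset.sum_sub_distrib, Finset.sum_const, Finset.card_univ, nsmul_eq_mul,
        mul_one]
      rw [Finset.sum_comm]
    have h6 : (Fintype.card K : ℝ) = s + t - 1 := by
      have : ((Fintype.card K + 1 : ℕ) : ℝ) = ((Fintype.card S + Fintype.card T : ℕ) : ℝ) := by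
        rw [hK]
      push_cast at this
      linarith
    rw [h4, h5] at h1
    rw [h2, Finset.sum_sub_distrib, htr, Finset.sum_const, Finset.card_univ, nsmul_eq_mul, h6]
    nlinarith


section projection

variable {N : Type*} [Fintype N] [DecidableEq N]

theorem trace_mul_expand (P L : Matrix N N ℝ) (w : N → N → ℝ) (μ : N → ℝ)
    (hw : ∀ i p, (L *ᵥ w i) p = μ i * w i p)
    (hcomp : ∀ p q, ∑ i, w i p * w i q = if p = q then 1 else 0) :
    (P * L).trace = ∑ i, μ i * ∑ p, ∑ q, w i p * P p q * w i q := by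
  have h1 : ∀ q p, L q p = ∑ i, μ i * w i q * w i p := by
    intro q p
    have : ∀ i, μ i * w i q * w i p = ∑ r, L q r * (w i r * w i p) := by
      intro i
      rw [← hw]
      simp only [Matrix.mulVec, dotProduct, Finset.sum_mul]
      exact Finset.sum_congr rfl fun r _ => by ring
    simp only [this]
    rw [Finset.sum_comm]
    simp only [← Finset.mul_sum, hcomp]
    simp
  simp only [Matrix.trace, Matrix.diag_apply, Matrix.mul_apply, h1, Finset.mul_sum]
  have h2 : ∀ p, ∑ q, ∑ i, P p q * (μ i * w i q * w i p) =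
      ∑ i, ∑ q, P p q * (μ i * w i q * w i p) := fun p => Finset.sum_comm
  simp only [h2]
  rw [Finset.sum_comm]
  refine Finset.sum_congr rfl fun i _ => Finset.sum_congr rfl fun p _ =>
    Finset.sum_congr rfl fun q _ => by ring

theorem q_bounds (P : Matrix N N ℝ) (hPs : Pᵀ = P) (hPP : P * P = P) (x : N → ℝ)
    (hx : ∑ p, x p * x p = 1) :
    0 ≤ ∑ p, ∑ q, x p * P p q * x q ∧ ∑ p, ∑ q, x p * P p q * x q ≤ 1 := by
  have h1 : ∑ p, ∑ q, x p * P p q * x q = ∑ r, (P *ᵥ x) r * (P *ᵥ x) r := by
    have h2 : ∑ p, ∑ q, x p * P p q * x q = x ⬝ᵥ (P *ᵥ x) := by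
      simp only [dotProduct, Matrix.mulVec, Finset.mul_sum, mul_assoc]
    rw [h2]
    change x ⬝ᵥ (P *ᵥ x) = (P *ᵥ x) ⬝ᵥ (P *ᵥ x)
    rw [Matrix.dotProduct_mulVec, Matrix.dotProduct_mulVec]
    congr 1
    rw [Matrix.vecMul_mulVec]
    rw [hPs, hPP]
  have h3 : ∑ p, ∑ q, x p * P p q * x q = ∑ r, x r * (P *ᵥ x) r := by
    simp only [dotProduct, Matrix.mulVec, Finset.mul_sum, mul_assoc]
  constructor
  · rw [h1]
    exact Finset.sum_nonneg fun _ _ => mul_self_nonneg _
  · have h4 : 0 ≤ ∑ r, (x r - (P *ᵥ x) r) * (x r - (P *ᵥ x) r) :=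
      Finset.sum_nonneg fun _ _ => mul_self_nonneg _
    have h5 : ∑ r, (x r - (P *ᵥ x) r) * (x r - (P *ᵥ x) r) =
        ∑ r, x r * x r - 2 * ∑ r, x r * (P *ᵥ x) r + ∑ r, (P *ᵥ x) r * (P *ᵥ x) r := by
      rw [Finset.mul_sum, ← Finset.sum_sub_distrib, ← Finset.sum_add_distrib]
      exact Finset.sum_congr rfl fun _ _ => by ring
    rw [h5, hx, ← h1, ← h3] at h4
    linarith

end projection

theorem lap_add (B : S → T → ℝ) (x y : S ⊕ T → ℝ) (p : S ⊕ T) :
    lap B (fun q => x q + y q) p = lap B x p + lap B y p := by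
  cases p with
  | inl u =>
    simp only [lap]
    have h1 : ∀ u', x (Sum.inl u) + y (Sum.inl u) - (x (Sum.inl u') + y (Sum.inl u')) =
        (x (Sum.inl u) - x (Sum.inl u')) + (y (Sum.inl u) - y (Sum.inl u')) := fun u' => by ring
    have h2 : ∀ v, B u v * (x (Sum.inl u) + y (Sum.inl u) - (x (Sum.inr v) + y (Sum.inr v))) =
        B u v * (x (Sum.inl u) - x (Sum.inr v)) + B u v * (y (Sum.inl u) - y (Sum.inr v)) :=
      fun v => by ring
    simp only [h1, h2, Finset.sum_add_distrib]
    ring
  | inr v =>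
    simp only [lap]
    have h2 : ∀ u, B u v * (x (Sum.inr v) + y (Sum.inr v) - (x (Sum.inl u) + y (Sum.inl u))) =
        B u v * (x (Sum.inr v) - x (Sum.inl u)) + B u v * (y (Sum.inr v) - y (Sum.inl u)) :=
      fun v => by ring
    simp only [h2, Finset.sum_add_distrib]

theorem lap_const (B : S → T → ℝ) (c : ℝ) (p : S ⊕ T) : lap B (fun _ => c) p = 0 := by
  cases p <;> simp [lap]

theorem lap_self (B : S → T → ℝ) :
    ∑ p, lap B (Pi.single p 1) p =
      (Fintype.card S : ℝ) * (Fintype.card S - 1) + 2 * ∑ u, ∑ v, B u v := by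
  rw [Fintype.sum_sum_type]
  have h1 : ∀ u : S, lap B (Pi.single (Sum.inl u) 1) (Sum.inl u) =
      ((Fintype.card S : ℝ) - 1) + ∑ v, B u v := by
    intro u
    simp [lap, Pi.single_apply, Finset.sum_sub_distrib]
  have h2 : ∀ v : T, lap B (Pi.single (Sum.inr v) 1) (Sum.inr v) = ∑ u, B u v := by
    intro v
    simp [lap, Pi.single_apply]
  simp only [h1, h2, Finset.sum_add_distrib]
  rw [Finset.sum_comm (s := (Finset.univ : Finset T))]
  simp
  ring

theorem lap_single_symm (B : S → T → ℝ) (p q : S ⊕ T) :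
    lap B (Pi.single p 1) q = lap B (Pi.single q 1) p := by
  by_cases hpq : p = q
  · rw [hpq]
  cases p with
  | inl u =>
    cases q with
    | inl u' =>
      have h1 : u ≠ u' := fun h => hpq (by rw [h])
      simp [lap, Pi.single_apply, h1, h1.symm]
    | inr v => simp [lap, Pi.single_apply]
  | inr v =>
    cases q with
    | inl u => simp [lap, Pi.single_apply]
    | inr v' =>
      have h1 : v ≠ v' := fun h => hpq (by rw [h])
      simp [lap, Pi.single_apply, h1, h1.symm]

theorem split_trace_le (B : S → T → ℝ) (hB0 : ∀ u v, 0 ≤ B u v) (hB1 : ∀ u v, B u v ≤ 1)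
    (L P : Matrix (S ⊕ T) (S ⊕ T) ℝ) (hL : ∀ x p, (L *ᵥ x) p = lap B x p)
    (hPs : Pᵀ = P) (hPP : P * P = P) (hP1 : ∀ p, ∑ q, P p q = 0) :
    (P * L).trace ≤ (Fintype.card S : ℝ) * P.trace + ∑ u, ∑ v, B u v := by
  classical
  rcases isEmpty_or_nonempty (S ⊕ T) with hN | hN
  · have : 0 ≤ ∑ u, ∑ v, B u v :=
      Finset.sum_nonneg fun _ _ => Finset.sum_nonneg fun _ _ => hB0 _ _
    simpa [Matrix.trace] using this
  set s : ℝ := (Fintype.card S : ℝ) with hs
  set n : ℝ := (Fintype.card (S ⊕ T) : ℝ) with hn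
  have hnpos : 0 < n := by
    rw [hn]; exact_mod_cast Fintype.card_pos
  let J : Matrix (S ⊕ T) (S ⊕ T) ℝ := Matrix.of fun _ _ => 1 / n
  have hLe : ∀ p q, L p q = lap B (Pi.single q 1) p := by
    intro p q
    rw [← hL]
    simp
  have hMs : (L - J).IsHermitian := by
    ext p q
    simp only [Matrix.conjTranspose_apply, Matrix.sub_apply, J, Matrix.of_apply, star_trivial]
    rw [hLe, hLe, lap_single_symm]
  let w : (S ⊕ T) → (S ⊕ T) → ℝ := fun i p => hMs.eigenvectorBasis i p
  let μ : (S ⊕ T) → ℝ := hMs.eigenvalues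
  have ho : ∀ i j, ∑ p, w i p * w j p = if i = j then 1 else 0 := by
    intro i j
    have := hMs.eigenvectorBasis.inner_eq_ite i j
    rw [← this, PiLp.inner_apply]
    refine Finset.sum_congr rfl fun p _ => ?_
    simp only [w]
    simp [mul_comm]
  have hcomp : ∀ p q, ∑ i, w i p * w i q = if p = q then 1 else 0 := by
    let W : Matrix (S ⊕ T) (S ⊕ T) ℝ := Matrix.of w
    have h1 : W * Wᵀ = 1 := by
      ext i j
      rw [Matrix.mul_apply, Matrix.one_apply, ← ho i j]
      rfl
    have h2 : Wᵀ * W = 1 := mul_eq_one_comm.mp h1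
    intro p q
    have := congrFun (congrFun h2 p) q
    rw [Matrix.mul_apply, Matrix.one_apply] at this
    rw [← this]
    rfl
  have hw : ∀ i p, ((L - J) *ᵥ w i) p = μ i * w i p := by
    intro i p
    exact congrFun (hMs.mulVec_eigenvectorBasis i) p
  have hJ : ∀ x : S ⊕ T → ℝ, ∀ p, (J *ᵥ x) p = (∑ q, x q) / n := by
    intro x p
    simp only [Matrix.mulVec, dotProduct, J, Matrix.of_apply, ← Finset.mul_sum]
    ring
  have hw' : ∀ i p, lap B (w i) p - (∑ q, w i q) / n = μ i * w i p := by
    intro i p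
    rw [← hw i p, Matrix.sub_mulVec, Pi.sub_apply, hL, hJ]
  have hlsum : ∀ x : S ⊕ T → ℝ, ∑ p, lap B x p = 0 := by
    intro x
    rw [Fintype.sum_sum_type]
    simp only [lap, Finset.sum_add_distrib]
    have h1 : ∑ u : S, ∑ u' : S, (x (Sum.inl u) - x (Sum.inl u')) = 0 := by
      simp only [Finset.sum_sub_distrib, Finset.sum_const, ← Finset.smul_sum]
      simp
    have h2 : ∑ v, ∑ u, B u v * (x (Sum.inr v) - x (Sum.inl u)) =
        - ∑ u, ∑ v, B u v * (x (Sum.inl u) - x (Sum.inr v)) := by
      rw [Finset.sum_comm, ← Finset.sum_neg_distrib]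
      refine Finset.sum_congr rfl fun u _ => ?_
      rw [← Finset.sum_neg_distrib]
      exact Finset.sum_congr rfl fun v _ => by ring
    rw [h1, h2]
    ring
  have hσ : ∀ i, (μ i + 1) * ∑ p, w i p = 0 := by
    intro i
    have h1 : ∑ p, (lap B (w i) p - (∑ q, w i q) / n) = ∑ p, μ i * w i p :=
      Finset.sum_congr rfl fun p _ => hw' i p
    rw [Finset.sum_sub_distrib, hlsum, Finset.sum_const, Finset.card_univ, nsmul_eq_mul,
      ← Finset.mul_sum, ← hn, mul_div_cancel₀ _ hnpos.ne'] at h1
    linarith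
  obtain ⟨i0, hi0⟩ : ∃ i, ∑ p, w i p ≠ 0 := by
    by_contra hcon
    push Not at hcon
    have h1 : ∑ i, (∑ p, w i p) * (∑ q, w i q) = n := by
      simp only [Finset.sum_mul_sum]
      rw [Finset.sum_comm]
      have : ∀ p, ∑ i, ∑ q, w i p * w i q = 1 := by
        intro p
        rw [Finset.sum_comm]
        simp [hcomp]
      simp only [this]
      simp [hn]
    simp only [hcon, zero_mul, Finset.sum_const_zero] at h1
    exact hnpos.ne h1
  have hμ0 : μ i0 = -1 := by
    rcases mul_eq_zero.mp (hσ i0) with h | h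
    · linarith
    · exact absurd h hi0
  set σ : ℝ := ∑ p, w i0 p with hσd
  have hwi0 : ∀ p, w i0 p = σ / n := by
    let y : S ⊕ T → ℝ := fun p => w i0 p + (-(σ / n))
    have hy1 : ∀ p, lap B y p = - y p := by
      intro p
      have h1 : lap B y p = lap B (w i0) p + lap B (fun _ => -(σ / n)) p :=
        lap_add B (w i0) (fun _ => -(σ / n)) p
      rw [h1, lap_const]
      have h2 := hw' i0 p
      rw [hμ0] at h2
      simp only [y]
      linarith
    have hy2 := quad_nonneg B hB0 y
    simp only [hy1, mul_neg, Finset.sum_neg_distrib] at hy2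
    have hy3 : ∀ p ∈ Finset.univ, 0 ≤ y p * y p := fun p _ => mul_self_nonneg _
    have hy4 := (Finset.sum_eq_zero_iff_of_nonneg hy3).mp
      (le_antisymm (by linarith) (Finset.sum_nonneg hy3))
    intro p
    have := mul_self_eq_zero.mp (hy4 p (Finset.mem_univ p))
    simp only [y] at this
    linarith
  have hσj : ∀ j, j ≠ i0 → ∑ p, w j p = 0 := by
    intro j hj
    have h1 := ho i0 j
    rw [if_neg hj.symm] at h1
    simp only [hwi0, ← Finset.mul_sum] at h1
    rcases mul_eq_zero.mp h1 with h | h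
    · exact absurd h (div_ne_zero hi0 hnpos.ne')
    · exact h
  -- the trace of `P * L`
  have hPJ : (P * L).trace = (P * (L - J)).trace := by
    have : P * J = 0 := by
      ext p q
      simp only [Matrix.mul_apply, J, Matrix.of_apply, ← Finset.sum_mul, hP1, zero_mul,
        Matrix.zero_apply]
    rw [Matrix.mul_sub, this, sub_zero]
  have hq : ∀ i, 0 ≤ ∑ p, ∑ q, w i p * P p q * w i q ∧ ∑ p, ∑ q, w i p * P p q * w i q ≤ 1 :=
    fun i => q_bounds P hPs hPP (w i) (by rw [ho]; simp)
  have htrPL := trace_mul_expand P (L - J) w μ hw hcomp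
  have htrP : P.trace = ∑ i, 1 * ∑ p, ∑ q, w i p * P p q * w i q := by
    have := trace_mul_expand P 1 w (fun _ => 1) (fun i p => by simp) hcomp
    simpa using this
  have htrL : ∑ i, μ i = L.trace - 1 := by
    have h1 := trace_mul_expand 1 (L - J) w μ hw hcomp
    have h2 : ∀ i, ∑ p, ∑ q, w i p * (1 : Matrix (S ⊕ T) (S ⊕ T) ℝ) p q * w i q = 1 := by
      intro i
      have : ∀ p, ∑ q, w i p * (1 : Matrix (S ⊕ T) (S ⊕ T) ℝ) p q * w i q = w i p * w i p := by
        intro p
        simp [Matrix.one_apply]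
      simp only [this, ho]
      simp
    simp only [h2, mul_one, one_mul] at h1
    rw [← h1, Matrix.trace_sub]
    congr 1
    simp only [Matrix.trace, Matrix.diag_apply, J, Matrix.of_apply, Finset.sum_const,
      Finset.card_univ, nsmul_eq_mul, ← hn]
    exact mul_one_div_cancel hnpos.ne'
  have htrL2 : L.trace = s * (s - 1) + 2 * ∑ u, ∑ v, B u v := by
    rw [← lap_self B]
    simp only [Matrix.trace, Matrix.diag_apply, hLe]
  have hmain := pos_part_le (K := {i : S ⊕ T // i ≠ i0}) B hB0 hB1
    (by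
      have h1 : Fintype.card {i : S ⊕ T // i ≠ i0} = Fintype.card (S ⊕ T) - 1 := by
        rw [Fintype.card_subtype_compl, Fintype.card_subtype_eq]
      have h2 : 0 < Fintype.card (S ⊕ T) := Fintype.card_pos
      rw [h1, Fintype.card_sum] at *
      omega)
    (fun i => w i) (by
      intro i j
      rw [ho]
      by_cases hij : i = j
      · subst hij; simp
      · have : (i : S ⊕ T) ≠ (j : S ⊕ T) := fun h => hij (Subtype.ext h)
        simp [hij, this])
    (fun i => μ i) (by
      intro i p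
      have := hw' i p
      rw [hσj i i.2, zero_div, sub_zero] at this
      exact this)
    (fun i => hσj i i.2)
    (by
      have h1 : ∑ i, μ i = μ i0 + ∑ i : {i : S ⊕ T // i ≠ i0}, μ i := by
        rw [← Finset.add_sum_erase _ _ (Finset.mem_univ i0)]
        congr 1
        refine (Finset.sum_subtype _ ?_ _)
        intro x
        simp
      rw [hμ0, htrL, htrL2] at h1
      linarith)
  have hsplit : ∑ i, max (μ i - s) 0 = ∑ i : {i : S ⊕ T // i ≠ i0}, max (μ i - s) 0 := by
    rw [← Finset.add_sum_erase _ _ (Finset.mem_univ i0)]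
    have h0 : max (μ i0 - s) 0 = 0 := by
      rw [hμ0]
      apply max_eq_right
      have : 0 ≤ s := by rw [hs]; positivity
      linarith
    rw [h0, zero_add]
    refine (Finset.sum_subtype _ ?_ _)
    intro x
    simp
  rw [hPJ, htrPL, htrP, ← sub_le_iff_le_add', Finset.mul_sum, ← Finset.sum_sub_distrib]
  refine le_trans ?_ hmain
  rw [← hsplit]
  refine Finset.sum_le_sum fun i _ => ?_
  have h1 := hq i
  set q := ∑ p, ∑ q, w i p * P p q * w i q
  have h2 : μ i * q - s * (1 * q) = (μ i - s) * q := by ring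
  rw [h2]
  rcases le_total (μ i - s) 0 with h | h
  · rw [max_eq_right h]
    exact mul_nonpos_of_nonpos_of_nonneg h h1.1
  · rw [max_eq_left h]
    exact mul_le_of_le_one_right h h1.2

end Helper376Split
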