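import Pool.Agent.Helper376.Split

namespace Helper376Split

open Matrix Finset

set_option linter.unusedSectionVars false

variable {S T : Type*} [Fintype S] [Fintype T] [DecidableEq S] [DecidableEq T]

/-- matrix of the split Laplacian -/
def lapM (B : S → T → ℝ) : Matrix (S ⊕ T) (S ⊕ T) ℝ :=
  Matrix.of fun p q => lap B (Pi.single q 1) p

theorem lapM_mulVec (B : S → T → ℝ) (x : S ⊕ T → ℝ) (p : S ⊕ T) :
    (lapM B *ᵥ x) p = lap B x p := by
  have h1 : hh (fun q : S ⊕ T => (Pi.single q 1 : S ⊕ T → ℝ)) x = x := by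
    ext p
    simp [hh, Pi.single_apply]
  have h2 := lap_hh B (fun q : S ⊕ T => (Pi.single q 1 : S ⊕ T → ℝ)) x p
  rw [h1] at h2
  rw [h2]
  rfl

theorem trace_mul_lapM (B : S → T → ℝ) (P : Matrix (S ⊕ T) (S ⊕ T) ℝ) :
    (P * lapM B).trace = ∑ p, lap B (P p) p := by
  simp only [Matrix.trace, Matrix.diag_apply, Matrix.mul_apply]
  refine Finset.sum_congr rfl fun p _ => ?_
  rw [← lapM_mulVec]
  simp only [Matrix.mulVec, dotProduct]
  refine Finset.sum_congr rfl fun q _ => ?_
  rw [mul_comm]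
  congr 1
  exact lap_single_symm B p q

/-- closed form of the split inequality in terms of the entries of the projection `P`. -/
theorem splitClosed (B : S → T → ℝ) (hB0 : ∀ u w, 0 ≤ B u w) (hB1 : ∀ u w, B u w ≤ 1)
    (P : Matrix (S ⊕ T) (S ⊕ T) ℝ) (hPs : Pᵀ = P) (hPi : P * P = P) (hP1 : ∀ i, ∑ j, P i j = 0) :
    ∑ u, ∑ w, B u w * (P (.inl u) (.inl u) + P (.inr w) (.inr w) - 2 * P (.inl u) (.inr w) - 1)
      ≤ (Fintype.card S : ℝ) * ∑ w, P (.inr w) (.inr w) + ∑ u, ∑ u', P (.inl u) (.inl u') := by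
  have h := split_trace_le B hB0 hB1 (lapM B) P (fun x p => lapM_mulVec B x p) hPs hPi hP1
  rw [trace_mul_lapM, Fintype.sum_sum_type] at h
  have hs : ∀ w u, P (.inr w) (.inl u) = P (.inl u) (.inr w) := fun w u => by
    conv_lhs => rw [← hPs]
    rfl
  simp only [lap, Finset.sum_add_distrib, Finset.sum_sub_distrib, Finset.sum_const,
    Finset.card_univ, nsmul_eq_mul] at h
  have htr : P.trace = ∑ u, P (.inl u) (.inl u) + ∑ w, P (.inr w) (.inr w) := by
    simp only [Matrix.trace, Matrix.diag_apply, Fintype.sum_sum_type]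
  rw [htr, Finset.sum_comm (s := (Finset.univ : Finset T))] at h
  have e1 : ∑ u, ∑ w, B u w * (P (.inl u) (.inl u) + P (.inr w) (.inr w)
      - 2 * P (.inl u) (.inr w) - 1) =
      ∑ u, ∑ w, B u w * (P (.inl u) (.inl u) - P (.inl u) (.inr w)) +
      ∑ u, ∑ w, B u w * (P (.inr w) (.inr w) - P (.inr w) (.inl u)) - ∑ u, ∑ w, B u w := by
    rw [← Finset.sum_add_distrib, ← Finset.sum_sub_distrib]
    refine Finset.sum_congr rfl fun u _ => ?_
    rw [← Finset.sum_add_distrib, ← Finset.sum_sub_distrib]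
    exact Finset.sum_congr rfl fun w _ => by rw [hs]; ring
  rw [e1]
  rw [← Finset.mul_sum] at h
  linarith

end Helper376Split
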